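import Pool.Agent.H.MP_7783b9_co.B.Ram
import Pool.Agent.H.MP_7783b9_co.B.Rules

/-!
# The vertices which do not see a cluster form a red clique
-/

set_option autoImplicit false

open Finset

namespace Pool.MP7783b9

private theorem Blind_kill {α : Type} [DecidableEq α] {R : Finset α → Prop} {W : Finset α}
    {ε η : ℝ} {t : ℕ} {u : α} {X Y Φ Φ' : Finset α} (hX : Nice R W ε η X) (hYX : Y ⊆ X)
    (hXΦ : Disjoint X Φ) (hsub : Φ' ⊆ Φ) (hu : u ∈ Φ) (ht : t ≤ Y.card)
    (hbad : ∀ Z, Nice R W ε η Z → Z.card = t → Disjoint Z Φ' → ¬ RedTo R u Z)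
    (hred : ∀ p ∈ Y, ∀ q ∈ Y, p ≠ q → R {u, p, q}) : False := by
  obtain ⟨Z, hZY, hZ⟩ := Finset.exists_subset_card_eq ht
  have hZX : Z ⊆ X := hZY.trans hYX
  have hdis : Disjoint Z Φ := Finset.disjoint_of_subset_left hZX hXΦ
  refine hbad Z (hX.subset hZX) hZ (Finset.disjoint_of_subset_right hsub hdis) ⟨?_, ?_⟩
  · intro h
    exact (Finset.disjoint_left.mp hdis h) hu
  · intro p hp q hq hpq
    exact hred p (hZY hp) q (hZY hq) hpq

theorem blind_red (t : ℕ) :
    ∃ r : ℕ, ∀ {α : Type} [DecidableEq α] (R : Finset α → Prop) (C : Finset α) (ε η φ : ℝ)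
      (_ : 0 ≤ φ)
      (_ : ∀ Φ : Finset α, (Φ.card : ℝ) ≤ 3 * φ * (C.card : ℝ) + 3 →
        ∃ X, Nice R C ε η X ∧ X.card = r ∧ Disjoint X Φ)
      (B : Finset α), (∀ v ∈ B, ¬ Usable R C ε η φ t v) → ¬ BlueFano R (B ∪ C) →
        RedClique R B := by
  classical
  obtain ⟨r2, hr2⟩ := ram2 (Bool × Bool × Bool) (max t 4)
  refine ⟨r2, ?_⟩
  intro α _ R C ε η φ hφ hX B hU hF
  have hW0 : (0 : ℝ) ≤ φ * (C.card : ℝ) := mul_nonneg hφ (Nat.cast_nonneg _)
  have hbad : ∀ v ∈ B, ∃ Φ : Finset α, (Φ.card : ℝ) ≤ φ * (C.card : ℝ) ∧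
      ∀ Z, Nice R C ε η Z → Z.card = t → Disjoint Z Φ → ¬ RedTo R v Z := by
    intro v hv
    have h := hU v hv
    unfold Usable at h
    push Not at h
    obtain ⟨Φ, h1, h2⟩ := h
    exact ⟨Φ, h1, fun Z a b c => h2 Z a b c⟩
  intro f hf hcard
  obtain ⟨u, v, w, huv, huw, hvw, rfl⟩ := Finset.card_eq_three.mp hcard
  have hu : u ∈ B := hf (by simp)
  have hv : v ∈ B := hf (by simp)
  have hw : w ∈ B := hf (by simp)
  by_contra hR
  obtain ⟨Φu, hu1, hu2⟩ := hbad u hu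
  obtain ⟨Φv, hv1, hv2⟩ := hbad v hv
  obtain ⟨Φw, hw1, hw2⟩ := hbad w hw
  have hc : ((((Φu ∪ Φv) ∪ Φw) ∪ {u, v, w} : Finset α).card : ℝ) ≤
      3 * φ * (C.card : ℝ) + 3 := by
    have e1 : (((Φu ∪ Φv) ∪ Φw) ∪ {u, v, w} : Finset α).card ≤
        Φu.card + Φv.card + Φw.card + 3 := by
      calc (((Φu ∪ Φv) ∪ Φw) ∪ {u, v, w} : Finset α).card
          ≤ ((Φu ∪ Φv) ∪ Φw).card + ({u, v, w} : Finset α).card := Finset.card_union_le _ _
        _ ≤ ((Φu ∪ Φv).card + Φw.card) + 3 := by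
            gcongr
            · exact Finset.card_union_le _ _
            · exact Finset.card_le_three
        _ ≤ ((Φu.card + Φv.card) + Φw.card) + 3 := by
            gcongr
            exact Finset.card_union_le _ _
    have e2 : ((((Φu ∪ Φv) ∪ Φw) ∪ {u, v, w} : Finset α).card : ℝ) ≤
        (Φu.card : ℝ) + Φv.card + Φw.card + 3 := by exact_mod_cast e1
    linarith
  obtain ⟨X, hXn, hXc, hXd⟩ := hX _ hc
  obtain ⟨Y, hYX, hYc, c, hYcol⟩ := hr2 X
    (fun p q => (decide (R {u, p, q}), decide (R {v, p, q}), decide (R {w, p, q})))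
    (by intro x y; simp only [Finset.pair_comm x y]) (by rw [hXc])
  have htY : t ≤ Y.card := by rw [hYc]; exact le_max_left _ _
  have h4Y : 4 ≤ Y.card := by rw [hYc]; exact le_max_right _ _
  obtain ⟨c1, c2, c3⟩ := c
  have hcol : ∀ p ∈ Y, ∀ q ∈ Y, p ≠ q → decide (R {u, p, q}) = c1 ∧
      decide (R {v, p, q}) = c2 ∧ decide (R {w, p, q}) = c3 := by
    intro p hp q hq hpq
    have := hYcol p hp q hq hpq
    simp only [Prod.mk.injEq] at this
    exact this
  have hc1 : c1 = false := by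
    by_contra h
    have h' : c1 = true := by simpa using h
    refine Blind_kill hXn hYX hXd (Φ' := Φu) ?_ (u := u) (by simp) htY hu2 ?_
    · intro z hz; simp [hz]
    · intro p hp q hq hpq
      have := (hcol p hp q hq hpq).1
      rw [h'] at this
      exact of_decide_eq_true this
  have hc2 : c2 = false := by
    by_contra h
    have h' : c2 = true := by simpa using h
    refine Blind_kill hXn hYX hXd (Φ' := Φv) ?_ (u := v) (by simp) htY hv2 ?_
    · intro z hz; simp [hz]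
    · intro p hp q hq hpq
      have := (hcol p hp q hq hpq).2.1
      rw [h'] at this
      exact of_decide_eq_true this
  have hc3 : c3 = false := by
    by_contra h
    have h' : c3 = true := by simpa using h
    refine Blind_kill hXn hYX hXd (Φ' := Φw) ?_ (u := w) (by simp) htY hw2 ?_
    · intro z hz; simp [hz]
    · intro p hp q hq hpq
      have := (hcol p hp q hq hpq).2.2
      rw [h'] at this
      exact of_decide_eq_true this
  have hYd : Disjoint Y (((Φu ∪ Φv) ∪ Φw) ∪ {u, v, w}) :=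
    Finset.disjoint_of_subset_left hYX hXd
  have hne : ∀ z ∈ Y, u ≠ z ∧ v ≠ z ∧ w ≠ z := by
    intro z hz
    have h := Finset.disjoint_left.mp hYd hz
    refine ⟨?_, ?_, ?_⟩ <;> rintro rfl <;> exact h (by simp)
  have hbu : ∀ p ∈ Y, ∀ q ∈ Y, p ≠ q → Blue3 R u p q := by
    intro p hp q hq hpq
    refine ⟨(hne p hp).1, (hne q hq).1, hpq, ?_⟩
    have := (hcol p hp q hq hpq).1
    rw [hc1] at this
    exact of_decide_eq_false this
  have hbv : ∀ p ∈ Y, ∀ q ∈ Y, p ≠ q → Blue3 R v p q := by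
    intro p hp q hq hpq
    refine ⟨(hne p hp).2.1, (hne q hq).2.1, hpq, ?_⟩
    have := (hcol p hp q hq hpq).2.1
    rw [hc2] at this
    exact of_decide_eq_false this
  have hbw : ∀ p ∈ Y, ∀ q ∈ Y, p ≠ q → Blue3 R w p q := by
    intro p hp q hq hpq
    refine ⟨(hne p hp).2.2, (hne q hq).2.2, hpq, ?_⟩
    have := (hcol p hp q hq hpq).2.2
    rw [hc3] at this
    exact of_decide_eq_false this
  obtain ⟨Z, hZY, hZ4⟩ := Finset.exists_subset_card_eq h4Y
  obtain ⟨p, q, r, w', hpq, hpr, hpw, hqr, hqw, hrw, rfl⟩ := Finset.card_eq_four.mp hZ4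
  have hp : p ∈ Y := hZY (by simp)
  have hq : q ∈ Y := hZY (by simp)
  have hr : r ∈ Y := hZY (by simp)
  have hw' : w' ∈ Y := hZY (by simp)
  have hYW : ∀ z ∈ Y, z ∈ B ∪ C := fun z hz =>
    Finset.mem_union_right _ (hXn.sub (hYX hz))
  have hUW' : ∀ z ∈ B, z ∈ B ∪ C := fun z hz =>
    Finset.mem_union_left _ hz
  exact hF (fano_pairs R (B ∪ C) (hUW' u hu) (hUW' v hv) (hUW' w hw) (hYW p hp)
    (hYW q hq) (hYW r hr) (hYW w' hw') ⟨huv, huw, hvw, hR⟩ (hbu p hp q hq hpq)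
    (hbu r hr w' hw' hrw) (hbv p hp r hr hpr) (hbv q hq w' hw' hqw) (hbw p hp w' hw' hpw)
    (hbw q hq r hr hqr))

end Pool.MP7783b9
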