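import Pool.Agent.H.MP_7783b9_co.R.SparseSet

/-!
# Almost everything is covered by disjoint sparse sets of linear size
-/

set_option autoImplicit false

open Finset

namespace Pool.MP7783b9

theorem clusters (ε lam : ℝ) (hε : 0 < ε) (hlam : 0 < lam) :
    ∃ σ : ℝ, 0 < σ ∧ ∃ p₀ n₀ : ℕ, ∀ {α : Type} [DecidableEq α] (R : Finset α → Prop)
      (U : Finset α), n₀ ≤ U.card → ¬ BlueFano R U →
      ∃ 𝒞 : Finset (Finset α), 𝒞.card ≤ p₀ ∧
        (∀ C ∈ 𝒞, C ⊆ U ∧ σ * (U.card : ℝ) ≤ (C.card : ℝ) ∧ dense R C ε = ∅) ∧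
        (∀ C ∈ 𝒞, ∀ C' ∈ 𝒞, C ≠ C' → Disjoint C C') ∧
        ((U \ 𝒞.biUnion id).card : ℝ) ≤ lam * (U.card : ℝ) := by
  obtain ⟨γ, hγ, m₀, hsp⟩ := sparse_deg ε hε
  refine ⟨γ * lam, mul_pos hγ hlam, ⌈1 / (γ * lam)⌉₊, ⌈(m₀ : ℝ) / lam⌉₊ + 1, ?_⟩
  intro α _ R U hn hF
  classical
  have hσ : 0 < γ * lam := mul_pos hγ hlam
  set σ : ℝ := γ * lam with hσdef
  have hUpos : 0 < U.card := by omega
  have hUr : (0 : ℝ) < (U.card : ℝ) := by exact_mod_cast hUpos
  have hm0 : (m₀ : ℝ) ≤ lam * (U.card : ℝ) := by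
    have h1 : (m₀ : ℝ) / lam ≤ (U.card : ℝ) := by
      refine (Nat.le_ceil _).trans ?_
      exact_mod_cast (Nat.le_succ _).trans hn
    rw [div_le_iff₀ hlam] at h1
    linarith
  -- the families
  let Ok : Finset (Finset α) → Prop := fun P =>
    (∀ C ∈ P, C ⊆ U ∧ σ * (U.card : ℝ) ≤ (C.card : ℝ) ∧ dense R C ε = ∅) ∧
      (∀ C ∈ P, ∀ C' ∈ P, C ≠ C' → Disjoint C C')
  obtain ⟨P, hP, hmax⟩ := Finset.exists_max_image
    (U.powerset.powerset.filter fun P => Ok P) Finset.card
    ⟨∅, Finset.mem_filter.2 ⟨Finset.mem_powerset.2 (Finset.empty_subset _),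
      ⟨fun C hC => absurd hC (Finset.notMem_empty C),
        fun C hC => absurd hC (Finset.notMem_empty C)⟩⟩⟩
  have hOk : Ok P := (Finset.mem_filter.1 hP).2
  obtain ⟨h1, h2⟩ := hOk
  refine ⟨P, ?_, h1, h2, ?_⟩
  · have hdisj : (P : Set (Finset α)).PairwiseDisjoint id :=
      fun C hC C' hC' hne => h2 C hC C' hC' hne
    have hsub : P.biUnion id ⊆ U := by
      rw [Finset.biUnion_subset]
      exact fun C hC => (h1 C hC).1
    have h3 : ∑ C ∈ P, C.card ≤ U.card := by
      have h4 : (P.biUnion id).card = ∑ C ∈ P, C.card := Finset.card_biUnion hdisj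
      rw [← h4]
      exact Finset.card_le_card hsub
    have h4 : (P.card : ℝ) * (σ * (U.card : ℝ)) ≤ (U.card : ℝ) := by
      have h5 : ∑ C ∈ P, σ * (U.card : ℝ) ≤ ∑ C ∈ P, (C.card : ℝ) :=
        Finset.sum_le_sum fun C hC => (h1 C hC).2.1
      rw [Finset.sum_const, nsmul_eq_mul] at h5
      have h6 : (∑ C ∈ P, (C.card : ℝ)) ≤ (U.card : ℝ) := by exact_mod_cast h3
      linarith
    have h5 : (P.card : ℝ) ≤ 1 / σ := by
      rw [le_div_iff₀ hσ]
      have h6 : ((P.card : ℝ) * σ) * (U.card : ℝ) ≤ 1 * (U.card : ℝ) := by linarith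
      exact le_of_mul_le_mul_right h6 hUr
    exact_mod_cast h5.trans (Nat.le_ceil _)
  · by_contra hcon
    push Not at hcon
    set L := U \ P.biUnion id with hL
    have hLU : L ⊆ U := Finset.sdiff_subset
    have hLm : m₀ ≤ L.card := by
      have : (m₀ : ℝ) ≤ (L.card : ℝ) := by linarith
      exact_mod_cast this
    have hLF : ¬ BlueFano R L := by
      rintro ⟨ψ, g1, g2, g3⟩
      exact hF ⟨ψ, g1, fun i => hLU (g2 i), g3⟩
    obtain ⟨A', hA'L, hA'c, hA'd⟩ := hsp R L hLm hLF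
    have hA'1 : σ * (U.card : ℝ) ≤ (A'.card : ℝ) := by
      have : γ * (lam * (U.card : ℝ)) ≤ γ * (L.card : ℝ) :=
        mul_le_mul_of_nonneg_left hcon.le hγ.le
      rw [hσdef, mul_assoc]
      linarith
    have hA'ne : A'.Nonempty := by
      rw [← Finset.card_pos]
      have : (0 : ℝ) < (A'.card : ℝ) := lt_of_lt_of_le (mul_pos hσ hUr) hA'1
      exact_mod_cast this
    have hdis : ∀ C ∈ P, Disjoint A' C := by
      intro C hC
      rw [Finset.disjoint_left]
      intro x hx hxC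
      have hxL := hA'L hx
      rw [hL, Finset.mem_sdiff] at hxL
      exact hxL.2 (Finset.mem_biUnion.2 ⟨C, hC, hxC⟩)
    have hA'P : A' ∉ P := by
      intro h
      have h3 := hdis A' h
      rw [disjoint_self] at h3
      exact hA'ne.ne_empty h3
    have hnew : insert A' P ∈ U.powerset.powerset.filter fun P => Ok P := by
      refine Finset.mem_filter.2 ⟨?_, ?_, ?_⟩
      · rw [Finset.mem_powerset]
        intro C hC
        rw [Finset.mem_powerset]
        rcases Finset.mem_insert.1 hC with rfl | hC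
        · exact hA'L.trans hLU
        · exact (h1 C hC).1
      · intro C hC
        rcases Finset.mem_insert.1 hC with rfl | hC
        · exact ⟨hA'L.trans hLU, hA'1, hA'd⟩
        · exact h1 C hC
      · intro C hC C' hC' hne
        rcases Finset.mem_insert.1 hC with h | hC
        · rcases Finset.mem_insert.1 hC' with h' | hC'
          · exact absurd (h.trans h'.symm) hne
          · rw [h]; exact hdis C' hC'
        · rcases Finset.mem_insert.1 hC' with h' | hC'
          · rw [h']; exact (hdis C hC).symm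
          · exact h2 C hC C' hC' hne
    have h3 := hmax _ hnew
    rw [Finset.card_insert_of_notMem hA'P] at h3
    omega

end Pool.MP7783b9
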