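import Pool.Agent.H.MP_7783b9_co.G.Pad
import Pool.Agent.H.MP_7783b9_co.R.CoreIff

/-!
# Fano-goodness depends on the core only; cores with few junctions that are far apart
-/

set_option autoImplicit false

open Finset

namespace Pool.MP7783b9

theorem good_core (Δ : ℕ) :
    ∃ ζ : ℝ, 0 < ζ ∧ ∃ n₀ : ℕ, ∀ {V : Type*} [Fintype V] [DecidableEq V]
      (E : Finset (Finset V)) (_ : ∀ f ∈ E, f.card = 3) (_ : ∀ x, (edgesAt E x).card ≤ Δ)
      (_ : (incidence E).Connected) (S₀ : Finset V) (_ : S₀.Nonempty) (k : ℕ)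
      (P : Fin k → Finset V) (_ : ∀ j, ((P j).card : ℝ) ≤ ζ * (Fintype.card V : ℝ))
      (_ : ∀ j, (P j ∩ (S₀ ∪ (Finset.univ.filter fun i => i < j).biUnion P)).card ≤ 1)
      (_ : ∀ f ∈ E, f ⊆ S₀ ∨ ∃ j, f ⊆ P j) (_ : n₀ ≤ Fintype.card V),
      (FanoGood E ↔ Arrows (E.filter fun f => f ⊆ S₀) (2 * Fintype.card V - 1)) ∧
        ∀ cls : Finset V → ℕ, Sep (E.filter fun f => f ⊆ S₀) cls →
          (∀ i, ((pv (E.filter fun f => f ⊆ S₀) cls i).card : ℝ) ≤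
            ζ * (Fintype.card V : ℝ)) →
          ((junc (E.filter fun f => f ⊆ S₀) cls).card : ℝ) ≤ ζ * (Fintype.card V : ℝ) →
          FanoGood E := by
  obtain ⟨ζ₁, hζ₁, n₁, h₁⟩ := good_iff_core Δ
  obtain ⟨ζ₂, hζ₂, n₂, h₂⟩ := junctions_pad Δ
  refine ⟨min ζ₁ ζ₂, lt_min hζ₁ hζ₂, max n₁ n₂, ?_⟩
  intro V _ _ E h3 hdeg hc S₀ hS₀ k P hP hPc hE hn
  have hV : (0 : ℝ) ≤ (Fintype.card V : ℝ) := Nat.cast_nonneg _
  have hm₁ : min ζ₁ ζ₂ * (Fintype.card V : ℝ) ≤ ζ₁ * (Fintype.card V : ℝ) :=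
    mul_le_mul_of_nonneg_right (min_le_left _ _) hV
  have hm₂ : min ζ₁ ζ₂ * (Fintype.card V : ℝ) ≤ ζ₂ * (Fintype.card V : ℝ) :=
    mul_le_mul_of_nonneg_right (min_le_right _ _) hV
  have hiff := (h₁ E h3 hdeg hc S₀ hS₀ k P (fun j => (hP j).trans hm₁) hPc hE
    ((le_max_left _ _).trans hn)).1
  refine ⟨hiff, ?_⟩
  intro cls hsep hcls hj
  rw [hiff]
  have hyp : Hyp (Finset.univ : Finset V) (E.filter fun f => f ⊆ S₀) Δ :=
    ⟨fun f hf => h3 f (Finset.mem_filter.1 hf).1, fun f _ => Finset.subset_univ f, fun x =>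
      (Finset.card_le_card (Finset.filter_subset_filter _ (Finset.filter_subset _ _))).trans
        (hdeg x)⟩
  apply arrows_of
  intro R
  exact h₂ (E.filter fun f => f ⊆ S₀) hyp cls hsep (fun i => (hcls i).trans hm₂)
    (hj.trans hm₂) ((le_max_right _ _).trans hn) R Finset.univ
    (by rw [Finset.card_univ, Fintype.card_fin])

end Pool.MP7783b9
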