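import Pool.Agent.H.MP_7783b9_co.B.Basic

/-!
# Partitions of the edges into classes, junctions
-/

set_option autoImplicit false

open Finset

namespace Pool.MP7783b9

section

variable {V ι : Type*} [DecidableEq V] [DecidableEq ι]

/-- the vertices covered by the edges of class `i` -/
def pv (E : Finset (Finset V)) (cls : Finset V → ι) (i : ι) : Finset V :=
  (E.filter fun f => cls f = i).biUnion id

/-- the junctions: vertices that lie in edges of different classes -/
def junc (E : Finset (Finset V)) (cls : Finset V → ι) : Finset V :=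
  (E.biUnion id).filter fun v => ∃ f ∈ E, ∃ g ∈ E, v ∈ f ∧ v ∈ g ∧ cls f ≠ cls g

/-- Inside every class, different junctions have distance at least four: no three edges
`f, g, h` of the same class lead from one junction to another one. -/
def Sep (E : Finset (Finset V)) (cls : Finset V → ι) : Prop :=
  ∀ f ∈ E, ∀ g ∈ E, ∀ h ∈ E, cls f = cls g → cls g = cls h →
    ∀ z ∈ junc E cls, ∀ z' ∈ junc E cls, z ∈ f → z' ∈ h → (f ∩ g).Nonempty →
      (g ∩ h).Nonempty → z = z'

theorem mem_pv {E : Finset (Finset V)} {cls : Finset V → ι} {i : ι} {v : V} :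
    v ∈ pv E cls i ↔ ∃ f ∈ E, cls f = i ∧ v ∈ f := by
  unfold pv
  rw [Finset.mem_biUnion]
  constructor
  · rintro ⟨f, hf, hv⟩
    exact ⟨f, (Finset.mem_filter.1 hf).1, (Finset.mem_filter.1 hf).2, hv⟩
  · rintro ⟨f, hf, hi, hv⟩
    exact ⟨f, Finset.mem_filter.2 ⟨hf, hi⟩, hv⟩

theorem mem_junc {E : Finset (Finset V)} {cls : Finset V → ι} {v : V} :
    v ∈ junc E cls ↔ ∃ f ∈ E, ∃ g ∈ E, v ∈ f ∧ v ∈ g ∧ cls f ≠ cls g := by
  unfold junc
  rw [Finset.mem_filter]
  constructor
  · exact fun h => h.2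
  · rintro ⟨f, hf, g, hg, hvf, hvg, hne⟩
    exact ⟨Finset.mem_biUnion.2 ⟨f, hf, hvf⟩, f, hf, g, hg, hvf, hvg, hne⟩

/-- a vertex that is not a junction lies in one class only -/
theorem class_unique {E : Finset (Finset V)} {cls : Finset V → ι} {v : V}
    (hv : v ∉ junc E cls) {f g : Finset V} (hf : f ∈ E) (hg : g ∈ E) (hvf : v ∈ f)
    (hvg : v ∈ g) : cls f = cls g := by
  by_contra h
  exact hv (mem_junc.2 ⟨f, hf, g, hg, hvf, hvg, h⟩)

end

end Pool.MP7783b9
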