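import Pool.Agent.H.MP_7783b9_co.G.Junc
import Pool.Agent.H.MP_7783b9_co.B.Fixed

/-!
# Embedding the classes that are assigned to one cluster
-/

set_option autoImplicit false

open Finset

namespace Pool.MP7783b9

section

variable {V ι : Type*} [DecidableEq V] [DecidableEq ι]

/-- the other vertices of the edges of class `k.2` at `k.1` -/
def EmbC_N (E : Finset (Finset V)) (cls : Finset V → ι) (k : V × ι) : Finset V :=
  (E.filter fun f => cls f = k.2 ∧ k.1 ∈ f).biUnion fun f => f.erase k.1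

/-- the incidences of junctions and classes of `I` -/
def EmbC_K (E : Finset (Finset V)) (cls : Finset V → ι) (I : Finset ι) : Finset (V × ι) :=
  ((junc E cls ×ˢ E.image cls).filter fun k => k.1 ∈ pv E cls k.2).filter fun k => k.2 ∈ I

theorem EmbC_mem_N {E : Finset (Finset V)} {cls : Finset V → ι} {k : V × ι} {y : V} :
    y ∈ EmbC_N E cls k ↔ ∃ f ∈ E, cls f = k.2 ∧ k.1 ∈ f ∧ y ≠ k.1 ∧ y ∈ f := by
  unfold EmbC_N
  rw [Finset.mem_biUnion]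
  constructor
  · rintro ⟨f, hf, hy⟩
    rw [Finset.mem_filter] at hf
    rw [Finset.mem_erase] at hy
    exact ⟨f, hf.1, hf.2.1, hf.2.2, hy.1, hy.2⟩
  · rintro ⟨f, hf, h1, h2, h3, h4⟩
    exact ⟨f, Finset.mem_filter.2 ⟨hf, h1, h2⟩, Finset.mem_erase.2 ⟨h3, h4⟩⟩

theorem EmbC_mem_K {E : Finset (Finset V)} {cls : Finset V → ι} {I : Finset ι} {k : V × ι} :
    k ∈ EmbC_K E cls I ↔ k.1 ∈ junc E cls ∧ k.1 ∈ pv E cls k.2 ∧ k.2 ∈ I := by
  unfold EmbC_K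
  rw [Finset.mem_filter, Finset.mem_filter, Finset.mem_product]
  constructor
  · rintro ⟨⟨⟨h1, _⟩, h3⟩, h4⟩
    exact ⟨h1, h3, h4⟩
  · rintro ⟨h1, h2, h3⟩
    obtain ⟨f, hf, hi, _⟩ := mem_pv.1 h2
    exact ⟨⟨⟨h1, Finset.mem_image.2 ⟨f, hf, hi⟩⟩, h2⟩, h3⟩

theorem EmbC_N_card {S : Finset V} {E : Finset (Finset V)} {Δ : ℕ} (hH : Hyp S E Δ)
    (cls : Finset V → ι) (k : V × ι) : (EmbC_N E cls k).card ≤ 2 * Δ := by
  unfold EmbC_N
  have h1 : ((E.filter fun f => cls f = k.2 ∧ k.1 ∈ f).biUnion fun f => f.erase k.1).card ≤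
      (E.filter fun f => cls f = k.2 ∧ k.1 ∈ f).card * 2 := by
    refine Finset.card_biUnion_le_card_mul _ _ _ fun f hf => ?_
    rw [Finset.mem_filter] at hf
    rw [Finset.card_erase_of_mem hf.2.2, hH.three f hf.1]
  have h2 : (E.filter fun f => cls f = k.2 ∧ k.1 ∈ f).card ≤ Δ := by
    refine (Finset.card_le_card ?_).trans (hH.deg k.1)
    intro f hf
    rw [Finset.mem_filter] at hf
    exact Finset.mem_filter.2 ⟨hf.1, hf.2.2⟩
  omega

theorem EmbC_notMem {E : Finset (Finset V)} {cls : Finset V → ι} (hsep : Sep E cls)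
    {k : V × ι} (hk : k.1 ∈ junc E cls) {y : V} (hy : y ∈ EmbC_N E cls k) :
    y ∉ junc E cls := by
  intro hyZ
  obtain ⟨f, hf, _, h2, h3, h4⟩ := EmbC_mem_N.1 hy
  have hne : (f ∩ f).Nonempty := ⟨y, Finset.mem_inter.2 ⟨h4, h4⟩⟩
  exact h3 (hsep f hf f hf f hf rfl rfl y hyZ k.1 hk h4 h2 hne hne)

/-- two points of one edge without junctions belong to the same incidence -/
theorem EmbC_chain {E : Finset (Finset V)} {cls : Finset V → ι} (hsep : Sep E cls)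
    {k k' : V × ι} (hk : k.1 ∈ junc E cls) (hk' : k'.1 ∈ junc E cls) {e : Finset V}
    (he : e ∈ E) {y y' : V} (hye : y ∈ e) (hye' : y' ∈ e) (hy : y ∈ EmbC_N E cls k)
    (hy' : y' ∈ EmbC_N E cls k') : k = k' := by
  have hyZ := EmbC_notMem hsep hk hy
  have hyZ' := EmbC_notMem hsep hk' hy'
  obtain ⟨f, hf, h1, h2, _, h4⟩ := EmbC_mem_N.1 hy
  obtain ⟨f', hf', h1', h2', _, h4'⟩ := EmbC_mem_N.1 hy'
  have hc : cls f = cls e := class_unique hyZ hf he h4 hye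
  have hc' : cls e = cls f' := class_unique hyZ' he hf' hye' h4'
  have h5 := hsep f hf e he f' hf' hc hc' k.1 hk k'.1 hk' h2 h2'
    ⟨y, Finset.mem_inter.2 ⟨h4, hye⟩⟩ ⟨y', Finset.mem_inter.2 ⟨hye', h4'⟩⟩
  refine Prod.ext h5 ?_
  rw [← h1, ← h1', hc, hc']

theorem EmbC_unique {E : Finset (Finset V)} {cls : Finset V → ι} (hsep : Sep E cls)
    {k k' : V × ι} (hk : k.1 ∈ junc E cls) (hk' : k'.1 ∈ junc E cls) {y : V}
    (hy : y ∈ EmbC_N E cls k) (hy' : y ∈ EmbC_N E cls k') : k = k' := by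
  obtain ⟨f, hf, _, _, _, h4⟩ := EmbC_mem_N.1 hy
  exact EmbC_chain hsep hk hk' hf h4 h4 hy hy'

theorem EmbC_map {α : Type*} [Nonempty α] (A : Finset V) (B : Finset α)
    (h : A.card ≤ B.card) : ∃ g : V → α, Set.InjOn g A ∧ ∀ y ∈ A, g y ∈ B := by
  classical
  have h1 : Fintype.card A ≤ Fintype.card B := by
    rw [Fintype.card_coe, Fintype.card_coe]
    exact h
  obtain ⟨e⟩ := Function.Embedding.nonempty_of_card_le h1
  refine ⟨fun y => if hy : y ∈ A then (e ⟨y, hy⟩ : α) else Classical.arbitrary α, ?_, ?_⟩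
  · intro y hy y' hy' heq
    have hy1 : y ∈ A := hy
    have hy1' : y' ∈ A := hy'
    simp only [dif_pos hy1, dif_pos hy1'] at heq
    have h2 := e.injective (Subtype.ext heq)
    exact congrArg Subtype.val h2
  · intro y hy
    simp only [dif_pos hy]
    exact (e ⟨y, hy⟩).2

end

/-- `C` is the cluster, `I` the set of classes assigned to it, `vt` the images of the
junctions -/
theorem embed_cluster (Δ : ℕ) :
    ∃ c : ℝ, 0 < c ∧ ∃ n₀ : ℕ, ∀ {V ι : Type*} {α : Type} [DecidableEq V] [DecidableEq ι]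
      [DecidableEq α] (S : Finset V) (E : Finset (Finset V)) (_ : Hyp S E Δ)
      (cls : Finset V → ι) (_ : Sep E cls) (R : Finset α → Prop) (C : Finset α) (I : Finset ι)
      (vt : V → α) (ε η : ℝ) (_ : ε ≤ c) (_ : η ≤ c) (_ : dense R C ε = ∅)
      (Y : V × ι → Finset α)
      (_ : ∀ z ∈ junc E cls, ∀ i ∈ I, z ∈ pv E cls i → Nice R C ε η (Y (z, i)) ∧
        (Y (z, i)).card = 2 * Δ ∧ Disjoint (Y (z, i)) ((junc E cls).image vt))
      (_ : ∀ z ∈ junc E cls, ∀ i ∈ I, z ∈ pv E cls i → ∀ z' ∈ junc E cls, ∀ i' ∈ I,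
        z' ∈ pv E cls i' → (z, i) ≠ (z', i') → Disjoint (Y (z, i)) (Y (z', i')))
      (_ : (I.biUnion (pv E cls) \ junc E cls).card + (junc E cls).card ≤ C.card)
      (_ : ((junc E cls).card : ℝ) ≤ c * (C.card : ℝ)) (_ : n₀ ≤ C.card),
      ∃ ψ : V → α, Set.InjOn ψ (I.biUnion (pv E cls) \ junc E cls) ∧
        (∀ y ∈ I.biUnion (pv E cls) \ junc E cls, ψ y ∈ C \ (junc E cls).image vt) ∧
        ∀ f ∈ E, cls f ∈ I → (Disjoint f (junc E cls) → R (f.image ψ)) ∧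
          ∀ z ∈ f, z ∈ junc E cls → ∀ y ∈ f, y ≠ z → ψ y ∈ Y (z, cls f) := by
  classical
  obtain ⟨c', hc', n₀', hext⟩ := embed_ext Δ
  have hΔ0 : (0 : ℝ) ≤ (Δ : ℝ) := Nat.cast_nonneg _
  have hΔ2 : (0 : ℝ) ≤ (Δ : ℝ) ^ 2 := pow_nonneg hΔ0 2
  obtain ⟨c, hc0, hcc', hcΔ, hc2⟩ : ∃ c : ℝ, 0 < c ∧ c ≤ c' ∧ 2 * (Δ : ℝ) ^ 2 * c ≤ c' ∧
      c ≤ 1 / 2 := by
    have h0 : (0 : ℝ) < 2 * (Δ : ℝ) ^ 2 + 1 := by linarith only [hΔ2]
    refine ⟨min (c' / (2 * (Δ : ℝ) ^ 2 + 1)) (1 / 2), lt_min (div_pos hc' h0) (by norm_num),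
      ?_, ?_, min_le_right _ _⟩
    · refine (min_le_left _ _).trans ?_
      rw [div_le_iff₀ h0]
      have := mul_nonneg hc'.le hΔ2
      linarith only [this]
    · have h1 : min (c' / (2 * (Δ : ℝ) ^ 2 + 1)) (1 / 2) ≤ c' / (2 * (Δ : ℝ) ^ 2 + 1) :=
        min_le_left _ _
      have h2 : 2 * (Δ : ℝ) ^ 2 * (c' / (2 * (Δ : ℝ) ^ 2 + 1)) ≤ c' := by
        rw [← mul_div_assoc, div_le_iff₀ h0]
        linarith only [hc']
      have h3 : (0 : ℝ) ≤ 2 * (Δ : ℝ) ^ 2 := by linarith only [hΔ2]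
      exact (mul_le_mul_of_nonneg_left h1 h3).trans h2
  refine ⟨c, hc0, max n₀' 1, ?_⟩
  intro V ι α _ _ _ S E hH cls hsep R C I vt ε η hε hη hdense Y hY hYd hcard hZc hn
  have hn' : n₀' ≤ C.card := (le_max_left _ _).trans hn
  have hC1 : 0 < C.card := lt_of_lt_of_le Nat.one_pos ((le_max_right _ _).trans hn)
  obtain ⟨a0, _⟩ := Finset.card_pos.1 hC1
  haveI : Nonempty α := ⟨a0⟩
  set Z := junc E cls with hZ
  set K := EmbC_K E cls I with hK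
  set X := K.biUnion (EmbC_N E cls) with hX
  set S' := I.biUnion (pv E cls) \ Z with hS'
  set E' := E.filter fun f => cls f ∈ I ∧ Disjoint f Z with hE'
  have hKm : ∀ k ∈ K, k.1 ∈ Z ∧ k.1 ∈ pv E cls k.2 ∧ k.2 ∈ I := fun k hk => EmbC_mem_K.1 hk
  have hYK : ∀ k ∈ K, Nice R C ε η (Y k) ∧ (Y k).card = 2 * Δ ∧
      Disjoint (Y k) (Z.image vt) := fun k hk =>
    hY k.1 (hKm k hk).1 k.2 (hKm k hk).2.2 (hKm k hk).2.1
  have hYKd : ∀ k ∈ K, ∀ k' ∈ K, k ≠ k' → Disjoint (Y k) (Y k') := fun k hk k' hk' hne =>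
    hYd k.1 (hKm k hk).1 k.2 (hKm k hk).2.2 (hKm k hk).2.1 k'.1 (hKm k' hk').1 k'.2
      (hKm k' hk').2.2 (hKm k' hk').2.1 hne
  have hg : ∀ k : V × ι, ∃ g : V → α, k ∈ K → Set.InjOn g (EmbC_N E cls k) ∧
      ∀ y ∈ EmbC_N E cls k, g y ∈ Y k := by
    intro k
    by_cases hk : k ∈ K
    · obtain ⟨g, h1, h2⟩ := EmbC_map (EmbC_N E cls k) (Y k)
        ((EmbC_N_card hH cls k).trans (hYK k hk).2.1.ge)
      exact ⟨g, fun _ => ⟨h1, h2⟩⟩
    · exact ⟨fun _ => a0, fun h => absurd h hk⟩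
  choose g hg using hg
  have hφ : ∃ φ : V → α, ∀ k ∈ K, ∀ y ∈ EmbC_N E cls k, φ y = g k y := by
    refine ⟨fun y => if h : ∃ k ∈ K, y ∈ EmbC_N E cls k then g h.choose y else a0, ?_⟩
    intro k hk y hy
    have h : ∃ k ∈ K, y ∈ EmbC_N E cls k := ⟨k, hk, hy⟩
    simp only [dif_pos h]
    have h1 : h.choose = k :=
      EmbC_unique hsep (hKm _ h.choose_spec.1).1 (hKm k hk).1 h.choose_spec.2 hy
    rw [h1]
  obtain ⟨φ, hφ⟩ := hφ
  have hφY : ∀ k ∈ K, ∀ y ∈ EmbC_N E cls k, φ y ∈ Y k := fun k hk y hy => by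
    rw [hφ k hk y hy]
    exact (hg k hk).2 y hy
  have hmemX : ∀ y ∈ X, ∃ k ∈ K, y ∈ EmbC_N E cls k := fun y hy => Finset.mem_biUnion.1 hy
  have hXS : X ⊆ S' := by
    intro y hy
    obtain ⟨k, hk, hyk⟩ := hmemX y hy
    obtain ⟨f, hf, h1, h2, h3, h4⟩ := EmbC_mem_N.1 hyk
    refine Finset.mem_sdiff.2 ⟨Finset.mem_biUnion.2 ⟨k.2, (hKm k hk).2.2, ?_⟩,
      EmbC_notMem hsep (hKm k hk).1 hyk⟩
    exact mem_pv.2 ⟨f, hf, h1, h4⟩
  have hinj : Set.InjOn φ X := by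
    intro y hy y' hy' heq
    obtain ⟨k, hk, hyk⟩ := hmemX y hy
    obtain ⟨k', hk', hyk'⟩ := hmemX y' hy'
    have h1 := hφY k hk y hyk
    have h2 := hφY k' hk' y' hyk'
    by_cases hkk : k = k'
    · subst hkk
      rw [hφ k hk y hyk, hφ k hk y' hyk'] at heq
      exact (hg k hk).1 hyk hyk' heq
    · exact absurd (heq ▸ h2) (Finset.disjoint_left.1 (hYKd k hk k' hk' hkk) h1)
  have hmap : ∀ x ∈ X, φ x ∈ C \ Z.image vt := by
    intro x hx
    obtain ⟨k, hk, hxk⟩ := hmemX x hx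
    have h1 := hφY k hk x hxk
    exact Finset.mem_sdiff.2 ⟨(hYK k hk).1.sub h1, Finset.disjoint_left.1 (hYK k hk).2.2 h1⟩
  have hH' : Hyp S' E' Δ := by
    refine ⟨fun f hf => hH.three f (Finset.mem_filter.1 hf).1, ?_, ?_⟩
    · intro f hf y hy
      obtain ⟨hfE, hfI, hfZ⟩ := Finset.mem_filter.1 hf
      refine Finset.mem_sdiff.2 ⟨Finset.mem_biUnion.2 ⟨cls f, hfI, ?_⟩,
        Finset.disjoint_left.1 hfZ hy⟩
      exact mem_pv.2 ⟨f, hfE, rfl, hy⟩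
    · intro x
      refine (Finset.card_le_card ?_).trans (hH.deg x)
      intro f hf
      have hf' := Finset.mem_filter.1 hf
      exact Finset.mem_filter.2 ⟨(Finset.mem_filter.1 hf'.1).1, hf'.2⟩
  have himg : (Z.image vt).card ≤ Z.card := Finset.card_image_le
  have hW'card : C.card - (Z.image vt).card ≤ (C \ Z.image vt).card := Finset.le_card_sdiff _ _
  have hSW : S'.card ≤ (C \ Z.image vt).card := by omega
  have hW2 : (C.card : ℝ) ≤ 2 * ((C \ Z.image vt).card : ℝ) := by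
    have h1 : C.card ≤ (C \ Z.image vt).card + Z.card := by omega
    have h2 : (C.card : ℝ) ≤ ((C \ Z.image vt).card : ℝ) + (Z.card : ℝ) := by exact_mod_cast h1
    have h3 : c * (C.card : ℝ) ≤ 1 / 2 * (C.card : ℝ) :=
      mul_le_mul_of_nonneg_right hc2 (Nat.cast_nonneg _)
    linarith only [h2, h3, hZc]
  have hXcard : (X.card : ℝ) ≤ c' * (C.card : ℝ) := by
    have h1 : K.card ≤ Δ * Z.card :=
      (Finset.card_le_card (Finset.filter_subset _ _)).trans (incid_card hH cls Z)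
    have h2 : X.card ≤ K.card * (2 * Δ) :=
      Finset.card_biUnion_le_card_mul _ _ _ fun k _ => EmbC_N_card hH cls k
    have h3 : X.card ≤ Δ * Z.card * (2 * Δ) := h2.trans (Nat.mul_le_mul_right _ h1)
    have h4 : (X.card : ℝ) ≤ (Δ : ℝ) * (Z.card : ℝ) * (2 * (Δ : ℝ)) := by exact_mod_cast h3
    have h5 : (0 : ℝ) ≤ 2 * (Δ : ℝ) ^ 2 := by linarith only [hΔ2]
    have h6 := mul_le_mul_of_nonneg_left hZc h5
    have h7 : 2 * (Δ : ℝ) ^ 2 * c * (C.card : ℝ) ≤ c' * (C.card : ℝ) :=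
      mul_le_mul_of_nonneg_right hcΔ (Nat.cast_nonneg _)
    calc (X.card : ℝ) ≤ (Δ : ℝ) * (Z.card : ℝ) * (2 * (Δ : ℝ)) := h4
      _ = 2 * (Δ : ℝ) ^ 2 * (Z.card : ℝ) := by ring
      _ ≤ 2 * (Δ : ℝ) ^ 2 * (c * (C.card : ℝ)) := h6
      _ = 2 * (Δ : ℝ) ^ 2 * c * (C.card : ℝ) := by ring
      _ ≤ c' * (C.card : ℝ) := h7
  have hsame : ∀ f ∈ E', ∀ x ∈ f, ∀ y ∈ f, x ∈ X → y ∈ X → ∃ k ∈ K, x ∈ EmbC_N E cls k ∧
      y ∈ EmbC_N E cls k := by
    intro f hf x hx y hy hxX hyX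
    obtain ⟨k, hk, hxk⟩ := hmemX x hxX
    obtain ⟨k', hk', hyk'⟩ := hmemX y hyX
    have h1 := EmbC_chain hsep (hKm k hk).1 (hKm k' hk').1 (Finset.mem_filter.1 hf).1 hx hy
      hxk hyk'
    rw [← h1] at hyk'
    exact ⟨k, hk, hxk, hyk'⟩
  have hC0 : (0 : ℝ) ≤ (C.card : ℝ) := Nat.cast_nonneg _
  have hC20 : (0 : ℝ) ≤ (C.card : ℝ) ^ 2 := pow_nonneg hC0 2
  obtain ⟨ψ, hψ, hψX⟩ := hext S' E' hH' R C (C \ Z.image vt) Finset.sdiff_subset hSW hW2 hn' X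
    hXS φ hinj hmap hXcard
    (by
      intro f hf hfX
      have h3 := hH'.three f hf
      obtain ⟨x, hx⟩ : f.Nonempty := Finset.card_pos.1 (by omega)
      obtain ⟨k, hk, hxk⟩ := hmemX x (hfX hx)
      refine (hYK k hk).1.red _ ?_ ?_
      · intro p hp
        obtain ⟨y, hy, rfl⟩ := Finset.mem_image.1 hp
        obtain ⟨k', hk', hxk', hyk'⟩ := hsame f hf x hx y hy (hfX hx) (hfX hy)
        have h1 := EmbC_unique hsep (hKm k hk).1 (hKm k' hk').1 hxk hxk'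
        rw [← h1] at hyk'
        exact hφY k hk y hyk'
      · rw [Finset.card_image_of_injOn (hinj.mono (by exact_mod_cast hfX)), h3])
    (by
      intro f hf x hx y hy z _ hxX hyX hxy _
      obtain ⟨k, hk, hxk, hyk⟩ := hsame f hf x hx y hy hxX hyX
      have h1 := (hYK k hk).1.cod _ (hφY k hk x hxk) _ (hφY k hk y hyk)
        (fun h => hxy (hinj hxX hyX h))
      have h2 : η * (C.card : ℝ) ≤ c' * (C.card : ℝ) :=
        mul_le_mul_of_nonneg_right (hη.trans hcc') hC0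
      exact h1.le.trans h2)
    (by
      intro f _ x _ hxX _
      obtain ⟨k, hk, hxk⟩ := hmemX x hxX
      have h1 := (hYK k hk).1.deg _ (hφY k hk x hxk)
      have h2 : ε * (C.card : ℝ) ^ 2 ≤ c' * (C.card : ℝ) ^ 2 :=
        mul_le_mul_of_nonneg_right (hε.trans hcc') hC20
      exact h1.le.trans h2)
    (by
      intro p hp _
      have hpC := (Finset.mem_sdiff.1 hp).1
      have h2 : ε * (C.card : ℝ) ^ 2 ≤ c' * (C.card : ℝ) ^ 2 :=
        mul_le_mul_of_nonneg_right (hε.trans hcc') hC20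
      by_contra hcon
      push Not at hcon
      have h3 : p ∈ dense R C ε := mem_dense.2 ⟨hpC, h2.trans hcon.le⟩
      rw [hdense] at h3
      exact absurd h3 (Finset.notMem_empty p))
  have hinjψ := hψ.1
  rw [hS', Finset.coe_sdiff] at hinjψ
  refine ⟨ψ, hinjψ, hψ.2.1, ?_⟩
  intro f hf hfI
  refine ⟨fun hfZ => hψ.2.2 f (Finset.mem_filter.2 ⟨hf, hfI, hfZ⟩), ?_⟩
  intro z hz hzZ y hy hyz
  have hk : (z, cls f) ∈ K := EmbC_mem_K.2 ⟨hzZ, mem_pv.2 ⟨f, hf, rfl, hz⟩, hfI⟩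
  have hyk : y ∈ EmbC_N E cls (z, cls f) := EmbC_mem_N.2 ⟨f, hf, rfl, hz, hyz, hy⟩
  rw [hψX y (Finset.mem_biUnion.2 ⟨_, hk, hyk⟩)]
  exact hφY _ hk y hyk

end Pool.MP7783b9
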