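import Pool.Agent.H.MP_7783b9_co.G.MainG
import Pool.Agent.H.MP_7783b9_co.Final

/-!
# Few junctions that are far apart: Fano-goodness
-/

set_option autoImplicit false

open Finset

namespace Pool.MP7783b9

/-- the value of the Ramsey number -/
private theorem FinalG_ramsey_eq {V : Type*} [Fintype V] [DecidableEq V] (E : Finset (Finset V))
    (n : ℕ) (h1 : Arrows E n) (h2 : ∀ m, m < n → ¬ Arrows E m) : ramsey E = n := by
  unfold ramsey
  apply le_antisymm
  · exact Nat.sInf_le h1
  · by_contra hlt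
    push Not at hlt
    have hne : {N | Arrows E N}.Nonempty := ⟨n, h1⟩
    exact h2 _ hlt (Nat.sInf_mem hne)

/-- every vertex lies in an edge -/
private theorem FinalG_cover {V : Type*} [Fintype V] [DecidableEq V] (E : Finset (Finset V))
    (hc : (incidence E).Connected) (h2 : 2 ≤ Fintype.card V) (v : V) : ∃ f ∈ E, v ∈ f := by
  obtain ⟨w, hw⟩ : ∃ w : V, w ≠ v := Fintype.exists_ne_of_one_lt_card h2 v
  obtain ⟨p⟩ := hc.preconnected (Sum.inl v) (Sum.inl w)
  have key : ∀ (x y : V ⊕ {f // f ∈ E}) (_ : (incidence E).Walk x y), x = Sum.inl v →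
      y = Sum.inl w → ∃ f ∈ E, v ∈ f := by
    intro x y q hx hy
    cases q with
    | nil =>
      rw [hx] at hy
      exact absurd (Sum.inl.inj hy).symm hw
    | @cons _ z _ hadj q =>
      subst hx
      rcases z with z | f
      · exact absurd hadj (fun h => h)
      · exact ⟨f.1, f.2, hadj⟩
  exact key _ _ p rfl rfl

theorem good_junctions (Δ : ℕ) :
    ∃ ζ : ℝ, 0 < ζ ∧ ∃ n₀ : ℕ, ∀ {V ι : Type*} [Fintype V] [DecidableEq V] [DecidableEq ι]
      (E : Finset (Finset V)) (_ : ∀ f ∈ E, f.card = 3) (_ : ∀ x, (edgesAt E x).card ≤ Δ)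
      (_ : (incidence E).Connected) (cls : Finset V → ι) (_ : Sep E cls)
      (_ : ∀ i, ((pv E cls i).card : ℝ) ≤ ζ * (Fintype.card V : ℝ))
      (_ : ((junc E cls).card : ℝ) ≤ ζ * (Fintype.card V : ℝ)) (_ : n₀ ≤ Fintype.card V),
      FanoGood E := by
  obtain ⟨ζ, hζ, n₀, hn₀⟩ := upper_junctions Δ
  refine ⟨ζ, hζ, n₀ + 2, ?_⟩
  intro V ι _ _ _ E h3 hdeg hc cls hsep hcls hj hn
  have hcard : (Finset.univ : Finset V).card = Fintype.card V := Finset.card_univ
  have hyp : Hyp (Finset.univ : Finset V) E Δ := ⟨h3, fun f _ => Finset.subset_univ f, hdeg⟩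
  unfold FanoGood
  apply FinalG_ramsey_eq
  · apply arrows_of
    intro R
    refine hn₀ Finset.univ E hyp (fun v _ => FinalG_cover E hc (by omega) v) cls hsep ?_ ?_ ?_ R
      Finset.univ ?_
    · intro i
      rw [hcard]
      exact hcls i
    · rw [hcard]
      exact hj
    · rw [hcard]
      omega
    · rw [hcard, Finset.card_univ, Fintype.card_fin]
      omega
  · intro m hm
    apply not_arrows_of_connected E h3 hc
    omega

end Pool.MP7783b9
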