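import Pool.Agent.H.MP_7783b9_co.G.Defs
import Pool.Agent.H.MP_7783b9_co.B.Far

/-!
# Disjoint nice sets for the junctions; number of incidences
-/

set_option autoImplicit false

open Finset

namespace Pool.MP7783b9

/-- disjoint nice sets in different clusters `cl k`, red to the vertices `vt k` -/
theorem exists_sets_multi {α κ : Type*} [DecidableEq α] [DecidableEq κ] (R : Finset α → Prop)
    (ε η φ : ℝ) (t : ℕ) (D : Finset κ) (cl : κ → Finset α) (vt : κ → α) (Φ : Finset α)
    (hD : ∀ k ∈ D, Usable R (cl k) ε η φ t (vt k))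
    (h : ∀ k ∈ D, (Φ.card : ℝ) + t * D.card ≤ φ * ((cl k).card : ℝ)) :
    ∃ Y : κ → Finset α, (∀ k ∈ D, Nice R (cl k) ε η (Y k) ∧ (Y k).card = t ∧
      Disjoint (Y k) Φ ∧ RedTo R (vt k) (Y k)) ∧
      ∀ k ∈ D, ∀ k' ∈ D, k ≠ k' → Disjoint (Y k) (Y k') := by
  induction D using Finset.induction_on with
  | empty =>
    exact ⟨fun _ => ∅, fun v hv => absurd hv (Finset.notMem_empty v),
      fun v hv => absurd hv (Finset.notMem_empty v)⟩
  | insert w D hw ih =>
    rw [Finset.card_insert_of_notMem hw] at h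
    push_cast at h
    have ht : (0 : ℝ) ≤ t := Nat.cast_nonneg t
    obtain ⟨Y, hY1, hY2⟩ := ih (fun v hv => hD v (Finset.mem_insert_of_mem hv))
      (fun k hk => by
        have := h k (Finset.mem_insert_of_mem hk)
        linarith)
    have hcard : ((Φ ∪ D.biUnion Y).card : ℝ) ≤ φ * ((cl w).card : ℝ) := by
      have h0 := h w (Finset.mem_insert_self w D)
      have h1 : (D.biUnion Y).card ≤ D.card * t :=
        Finset.card_biUnion_le_card_mul _ _ _ fun v hv => (hY1 v hv).2.1.le
      have h2 : (Φ ∪ D.biUnion Y).card ≤ Φ.card + D.card * t :=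
        (Finset.card_union_le _ _).trans (by omega)
      have h3 : ((Φ ∪ D.biUnion Y).card : ℝ) ≤ Φ.card + D.card * t := by exact_mod_cast h2
      linarith
    obtain ⟨Z, hZ1, hZ2, hZ3, hZ4⟩ := hD w (Finset.mem_insert_self w D) _ hcard
    rw [Finset.disjoint_union_right] at hZ3
    have hZD : ∀ v ∈ D, Disjoint Z (Y v) := fun v hv =>
      hZ3.2.mono_right (Finset.subset_biUnion_of_mem Y hv)
    have hne : ∀ v ∈ D, v ≠ w := fun v hv hvw => hw (hvw ▸ hv)
    refine ⟨Function.update Y w Z, ?_, ?_⟩
    · intro v hv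
      rcases Finset.mem_insert.1 hv with rfl | hv
      · rw [Function.update_self]
        exact ⟨hZ1, hZ2, hZ3.1, hZ4⟩
      · rw [Function.update_of_ne (hne v hv)]
        exact hY1 v hv
    · intro v hv v' hv' hvv
      rcases Finset.mem_insert.1 hv with hv1 | hv1
      · rcases Finset.mem_insert.1 hv' with hv2 | hv2
        · exact absurd (hv1.trans hv2.symm) hvv
        · rw [hv1, Function.update_self, Function.update_of_ne (hne v' hv2)]
          exact hZD v' hv2
      · rcases Finset.mem_insert.1 hv' with hv2 | hv2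
        · rw [hv2, Function.update_self, Function.update_of_ne (hne v hv1)]
          exact (hZD v hv1).symm
        · rw [Function.update_of_ne (hne v hv1), Function.update_of_ne (hne v' hv2)]
          exact hY2 v hv1 v' hv2 hvv

/-- every junction lies in at most `Δ` classes -/
theorem incid_card {V ι : Type*} [DecidableEq V] [DecidableEq ι] {S : Finset V}
    {E : Finset (Finset V)} {Δ : ℕ} (hH : Hyp S E Δ) (cls : Finset V → ι) (Z : Finset V) :
    ((Z ×ˢ E.image cls).filter fun k => k.1 ∈ pv E cls k.2).card ≤ Δ * Z.card := by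
  have hsub : ((Z ×ˢ E.image cls).filter fun k => k.1 ∈ pv E cls k.2) ⊆
      Z.biUnion fun z => (edgesAt E z).image fun f => (z, cls f) := by
    rintro ⟨z, i⟩ hk
    rw [Finset.mem_filter, Finset.mem_product] at hk
    obtain ⟨⟨hz, -⟩, hk⟩ := hk
    obtain ⟨f, hf, hi, hzf⟩ := mem_pv.1 hk
    rw [Finset.mem_biUnion]
    refine ⟨z, hz, Finset.mem_image.2 ⟨f, Finset.mem_filter.2 ⟨hf, hzf⟩, ?_⟩⟩
    exact Prod.ext rfl hi
  calc _ ≤ _ := Finset.card_le_card hsub
    _ ≤ Z.card * Δ := Finset.card_biUnion_le_card_mul _ _ _ fun z _ =>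
        Finset.card_image_le.trans (hH.deg z)
    _ = Δ * Z.card := Nat.mul_comm _ _

/-- the sizes of the classes add up to at most `n + Δ |Z|` -/
theorem sum_pv {V ι : Type*} [DecidableEq V] [DecidableEq ι] {S : Finset V}
    {E : Finset (Finset V)} {Δ : ℕ} (hH : Hyp S E Δ) (cls : Finset V → ι) :
    ∑ i ∈ E.image cls, (pv E cls i).card ≤ S.card + Δ * (junc E cls).card := by
  have h1 : ∑ i ∈ E.image cls, (pv E cls i \ junc E cls).card ≤ S.card := by
    rw [← Finset.card_biUnion]
    · apply Finset.card_le_card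
      intro v hv
      rw [Finset.mem_biUnion] at hv
      obtain ⟨i, -, hv⟩ := hv
      obtain ⟨f, hf, -, hvf⟩ := mem_pv.1 (Finset.mem_sdiff.1 hv).1
      exact hH.sub f hf hvf
    · intro i _ j _ hij
      rw [Function.onFun, Finset.disjoint_left]
      intro v hv hv'
      rw [Finset.mem_sdiff] at hv hv'
      obtain ⟨f, hf, hi, hvf⟩ := mem_pv.1 hv.1
      obtain ⟨g, hg, hj, hvg⟩ := mem_pv.1 hv'.1
      exact hij (by rw [← hi, ← hj]; exact class_unique hv.2 hf hg hvf hvg)
  have h2 : ∑ i ∈ E.image cls, (pv E cls i ∩ junc E cls).card ≤ Δ * (junc E cls).card := by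
    refine le_trans (le_of_eq ?_) (incid_card hH cls (junc E cls))
    rw [Finset.card_filter, Finset.sum_product_right]
    refine Finset.sum_congr rfl fun i _ => ?_
    rw [← Finset.card_filter]
    congr 1
    ext v
    rw [Finset.mem_inter, Finset.mem_filter, and_comm]
  calc ∑ i ∈ E.image cls, (pv E cls i).card
      = ∑ i ∈ E.image cls, ((pv E cls i ∩ junc E cls).card + (pv E cls i \ junc E cls).card) :=
        Finset.sum_congr rfl fun i _ => (Finset.card_inter_add_card_sdiff _ _).symm
    _ = ∑ i ∈ E.image cls, (pv E cls i ∩ junc E cls).card +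
        ∑ i ∈ E.image cls, (pv E cls i \ junc E cls).card := Finset.sum_add_distrib
    _ ≤ S.card + Δ * (junc E cls).card := by omega

end Pool.MP7783b9
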