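import Pool.Agent.H.MP_7783b9_co.G.Blind
import Pool.Agent.H.MP_7783b9_co.B.Presc

/-!
# A red clique with almost `n` vertices
-/

set_option autoImplicit false

open Finset

namespace Pool.MP7783b9

theorem Large_inj {V α : Type*} [DecidableEq V] [Nonempty α] (S : Finset V) (X : Finset α)
    (h : S.card ≤ X.card) : ∃ φ : V → α, Set.InjOn φ S ∧ ∀ v ∈ S, φ v ∈ X := by
  classical
  obtain ⟨X', hX', hc⟩ := Finset.exists_subset_card_eq h
  have e : S ≃ X' := Finset.equivOfCardEq hc.symm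
  refine ⟨fun v => if h : v ∈ S then (e ⟨v, h⟩ : α) else Classical.arbitrary α, ?_, ?_⟩
  · intro v hv w hw hvw
    have hv' : v ∈ S := hv
    have hw' : w ∈ S := hw
    simp only [hv', hw', dif_pos] at hvw
    exact congrArg Subtype.val (e.injective (Subtype.ext hvw))
  · intro v hv
    simp only [hv, dif_pos]
    exact hX' (e ⟨v, hv⟩).2

theorem Large_copy {V α : Type*} [DecidableEq V] [DecidableEq α] [Nonempty α] {S : Finset V}
    {E : Finset (Finset V)} {Δ : ℕ} (hH : Hyp S E Δ) {R : Finset α → Prop} {X U : Finset α}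
    (hXU : X ⊆ U) (hX : RedClique R X) (h : S.card ≤ X.card) : HasRed R S E U := by
  obtain ⟨φ, h1, h2⟩ := Large_inj S X h
  refine ⟨φ, h1, fun v hv => hXU (h2 v hv), ?_⟩
  intro f hf
  apply hX
  · intro z hz
    obtain ⟨w, hw, rfl⟩ := Finset.mem_image.1 hz
    exact h2 w (hH.sub f hf hw)
  · rw [Finset.card_image_of_injOn, hH.three f hf]
    intro v hv w hw hvw
    exact h1 (hH.sub f hf hv) (hH.sub f hf hw) hvw

theorem Large_red {α : Type*} [DecidableEq α] {R : Finset α → Prop} {C : Finset α}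
    (hC : RedClique R C) {a b c : α} (ha : a ∈ C) (hb : b ∈ C) (hc : c ∈ C) (hab : a ≠ b)
    (hac : a ≠ c) (hbc : b ≠ c) : R {a, b, c} := by
  apply hC
  · intro z hz
    rw [Finset.mem_insert, Finset.mem_insert, Finset.mem_singleton] at hz
    rcases hz with rfl | rfl | rfl <;> assumption
  · exact Finset.card_eq_three.2 ⟨a, b, c, hab, hac, hbc, rfl⟩

theorem Large_nice {α : Type*} [DecidableEq α] {R : Finset α → Prop} {C X : Finset α}
    (hC : RedClique R C) (hpos : 0 < C.card) (hX : X ⊆ C) : Nice R C 1 1 X where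
  sub := hX
  deg := by
    intro x hx
    have h0 : bpairs R C x = ∅ := by
      rw [Finset.eq_empty_iff_forall_notMem]
      rintro ⟨p, q⟩ hpq
      obtain ⟨hp, hq, h1, h2, h3, h4⟩ := mem_bpairs.1 hpq
      exact h4 (Large_red hC (hX hx) hp hq h1 h2 h3)
    have h1 : (0 : ℝ) < (C.card : ℝ) := by exact_mod_cast hpos
    rw [h0, Finset.card_empty]
    have h2 := pow_pos h1 2
    push_cast
    linarith
  cod := by
    intro x hx y hy hxy
    have h0 : Pool.MP7783b9.cod R C x y = ∅ := by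
      rw [Finset.eq_empty_iff_forall_notMem]
      intro z hz
      obtain ⟨hz, h1, h2, h3, h4⟩ := mem_cod.1 hz
      exact h4 (Large_red hC (hX hx) (hX hy) hz h1 h2 h3)
    have h1 : (0 : ℝ) < (C.card : ℝ) := by exact_mod_cast hpos
    rw [h0, Finset.card_empty]
    push_cast
    linarith
  red := fun f hf h3 => hC f (hf.trans hX) h3

/-- the last step: the prescribed part and the rest -/
theorem Large_glue {V α : Type*} [DecidableEq V] [DecidableEq α] [Nonempty α] {S : Finset V}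
    {E : Finset (Finset V)} {Δ : ℕ} (hH : Hyp S E Δ) {R : Finset α → Prop} {C U G : Finset α}
    (hCU : C ⊆ U) (hGU : G ⊆ U) (hC : RedClique R C) (hCG : Disjoint C G)
    (hcard : S.card ≤ C.card + G.card) {X : Finset V} {φ : V → α} (hXS : X ⊆ S)
    (hφ : Set.InjOn φ X) (hin : ∀ y ∈ X, φ y ∈ G ∪ C) (hG : G ⊆ X.image φ)
    (hred : ∀ f ∈ E, f ⊆ X → R (f.image φ))
    (hbd : ∀ f ∈ E, ∀ y ∈ f, y ∈ X → ¬ f ⊆ X → φ y ∈ C) : HasRed R S E U := by
  classical
  have hc1 : (X.image φ).card = X.card := Finset.card_image_of_injOn hφ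
  have hsub : X.image φ ⊆ G ∪ (C ∩ X.image φ) := by
    intro z hz
    obtain ⟨y, hy, rfl⟩ := Finset.mem_image.1 hz
    rcases Finset.mem_union.1 (hin y hy) with h | h
    · exact Finset.mem_union_left _ h
    · exact Finset.mem_union_right _ (Finset.mem_inter.2 ⟨h, hz⟩)
  have hsup : G ∪ (C ∩ X.image φ) ⊆ X.image φ := by
    intro z hz
    rcases Finset.mem_union.1 hz with h | h
    · exact hG h
    · exact (Finset.mem_inter.1 h).2
  have heq : (G ∪ (C ∩ X.image φ)) = X.image φ := Finset.Subset.antisymm hsup hsub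
  have hdis : Disjoint G (C ∩ X.image φ) :=
    hCG.symm.mono_right Finset.inter_subset_left
  have hc2 : G.card + (C ∩ X.image φ).card = X.card := by
    rw [← Finset.card_union_of_disjoint hdis, heq, hc1]
  have hc3 : (C \ X.image φ).card + (C ∩ X.image φ).card = C.card :=
    Finset.card_sdiff_add_card_inter C (X.image φ)
  have hc4 : (S \ X).card + X.card = S.card := Finset.card_sdiff_add_card_eq_card hXS
  obtain ⟨ψ, hψ1, hψ2⟩ := Large_inj (S \ X) (C \ X.image φ) (by omega)
  have hval : ∀ v ∈ S, v ∉ X → ψ v ∈ C ∧ ψ v ∉ X.image φ := by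
    intro v hv hvX
    exact Finset.mem_sdiff.1 (hψ2 v (Finset.mem_sdiff.2 ⟨hv, hvX⟩))
  have hinj : Set.InjOn (fun v => if v ∈ X then φ v else ψ v) S := by
    intro v hv w hw hvw
    simp only at hvw
    by_cases h1 : v ∈ X
    · by_cases h2 : w ∈ X
      · rw [if_pos h1, if_pos h2] at hvw
        exact hφ h1 h2 hvw
      · rw [if_pos h1, if_neg h2] at hvw
        exact absurd (Finset.mem_image.2 ⟨v, h1, hvw⟩) (hval w hw h2).2
    · by_cases h2 : w ∈ X
      · rw [if_neg h1, if_pos h2] at hvw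
        exact absurd (Finset.mem_image.2 ⟨w, h2, hvw.symm⟩) (hval v hv h1).2
      · rw [if_neg h1, if_neg h2] at hvw
        exact hψ1 (Finset.mem_sdiff.2 ⟨hv, h1⟩) (Finset.mem_sdiff.2 ⟨hw, h2⟩) hvw
  refine ⟨fun v => if v ∈ X then φ v else ψ v, hinj, ?_, ?_⟩
  · intro v hv
    simp only
    by_cases h : v ∈ X
    · rw [if_pos h]
      rcases Finset.mem_union.1 (hin v h) with h' | h'
      · exact hGU h'
      · exact hCU h'
    · rw [if_neg h]
      exact hCU (hval v hv h).1
  · intro f hf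
    by_cases hfX : f ⊆ X
    · have : f.image (fun v => if v ∈ X then φ v else ψ v) = f.image φ :=
        Finset.image_congr fun z hz => if_pos (hfX hz)
      rw [this]
      exact hred f hf hfX
    · apply hC
      · intro z hz
        obtain ⟨y, hy, rfl⟩ := Finset.mem_image.1 hz
        by_cases h : y ∈ X
        · rw [if_pos h]
          exact hbd f hf y hy h hfX
        · rw [if_neg h]
          exact (hval y (hH.sub f hf hy) h).1
      · rw [Finset.card_image_of_injOn, hH.three f hf]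
        intro v hv w hw hvw
        exact hinj (hH.sub f hf hv) (hH.sub f hf hw) hvw

theorem large_clique (Δ : ℕ) :
    ∃ ε₁ : ℝ, 0 < ε₁ ∧ ε₁ ≤ 1 ∧ ∃ n₀ : ℕ, ∀ {V : Type*} {α : Type} [DecidableEq V]
      [DecidableEq α] (S : Finset V) (E : Finset (Finset V)) (_ : Hyp S E Δ)
      (R : Finset α → Prop) (U : Finset α) (_ : 2 * S.card - 1 ≤ U.card)
      (_ : ¬ BlueFano R U) (C : Finset α) (_ : C ⊆ U) (_ : RedClique R C)
      (_ : (1 - ε₁) * (S.card : ℝ) ≤ (C.card : ℝ)) (_ : n₀ ≤ S.card),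
      HasRed R S E U := by
  obtain ⟨r, hr⟩ := blind_red (2 * Δ)
  set K : ℕ := 64 * (Δ + 1) * (2 * Δ + 1) ^ 3 with hK
  have hK1 : 1 ≤ K := by
    rw [hK]
    exact Nat.succ_le_of_lt (by positivity)
  have hKr : (1 : ℝ) ≤ K := by exact_mod_cast hK1
  have hK0 : (0 : ℝ) < K := by linarith
  have hpow : 1 ≤ (2 * Δ + 1) ^ 3 := Nat.one_le_pow _ _ (by omega)
  -- `K` is large
  have hK2 : (2 * Δ + 1) ^ 3 ≤ K := by
    rw [hK]
    calc (2 * Δ + 1) ^ 3 = 1 * (2 * Δ + 1) ^ 3 := (one_mul _).symm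
      _ ≤ 64 * (Δ + 1) * (2 * Δ + 1) ^ 3 := Nat.mul_le_mul_right _ (by omega)
  have hK3 : 64 * (Δ + 1) ≤ K := by
    rw [hK]
    calc 64 * (Δ + 1) = 64 * (Δ + 1) * 1 := (mul_one _).symm
      _ ≤ 64 * (Δ + 1) * (2 * Δ + 1) ^ 3 := Nat.mul_le_mul_left _ hpow
  refine ⟨1 / K, by positivity, ?_, 4 * (r + 3) + 8 * Δ + 8, ?_⟩
  · rw [div_le_one hK0]
    exact hKr
  intro V α _ _ S E hH R U hU hnb C hCU hC hCn hn
  classical
  have hSpos : 0 < S.card := by omega
  obtain ⟨v0, hv0⟩ := Finset.card_pos.1 hSpos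
  have hUpos : 0 < U.card := by omega
  obtain ⟨u0, hu0⟩ := Finset.card_pos.1 hUpos
  have hVn : Nonempty V := ⟨v0⟩
  have hαn : Nonempty α := ⟨u0⟩
  rcases le_or_gt S.card C.card with hbig | hsmall
  · exact Large_copy hH hCU hC hbig
  -- the size of `C`
  have hg : K * (S.card - C.card) ≤ S.card := by
    have h1 : (K : ℝ) * ((S.card : ℝ) - C.card) ≤ S.card := by
      have h2 : (S.card : ℝ) - C.card ≤ 1 / K * S.card := by linarith
      have h3 := mul_le_mul_of_nonneg_left h2 hK0.le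
      have h4 : (K : ℝ) * (1 / K * S.card) = S.card := by
        field_simp
      linarith
    have h2 : ((S.card - C.card : ℕ) : ℝ) = (S.card : ℝ) - C.card :=
      Nat.cast_sub hsmall.le
    rw [← h2] at h1
    exact_mod_cast h1
  have hC2 : S.card ≤ 2 * C.card := by
    have : 2 * (S.card - C.card) ≤ K * (S.card - C.card) :=
      Nat.mul_le_mul_right _ (by omega)
    omega
  have hCpos : 0 < C.card := by omega
  have hCr : (0 : ℝ) < (C.card : ℝ) := by exact_mod_cast hCpos
  -- the vertices of `C` are usable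
  have huse : ∀ v ∈ C, Usable R C 1 1 (1 / 8) (2 * Δ) v := by
    intro v hv Φ hΦ
    have h1 : 8 * Φ.card ≤ C.card := by
      have : (8 : ℝ) * Φ.card ≤ C.card := by linarith
      exact_mod_cast this
    have h2 : 2 * Δ ≤ ((C \ Φ).erase v).card := by
      have h3 := Finset.le_card_sdiff Φ C
      have h4 := Finset.pred_card_le_card_erase (s := C \ Φ) (a := v)
      omega
    obtain ⟨Y, hY, hYc⟩ := Finset.exists_subset_card_eq h2
    have hYC : Y ⊆ C := fun z hz =>
      (Finset.mem_sdiff.1 (Finset.mem_of_mem_erase (hY hz))).1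
    refine ⟨Y, Large_nice hC hCpos hYC, hYc, ?_, ?_, ?_⟩
    · rw [Finset.disjoint_left]
      intro z hz
      exact (Finset.mem_sdiff.1 (Finset.mem_of_mem_erase (hY hz))).2
    · intro h
      exact Finset.ne_of_mem_erase (hY h) rfl
    · intro p hp q hq hpq
      exact Large_red hC hv (hYC hp) (hYC hq) (Finset.ne_of_mem_erase (hY hp)).symm
        (Finset.ne_of_mem_erase (hY hq)).symm hpq
  set D0 : Finset α := U.filter fun v => ¬ Usable R C 1 1 (1 / 8) (2 * Δ) v with hD0
  have hD0red : RedClique R D0 := by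
    refine hr R C 1 1 (1 / 8) (by norm_num) ?_ D0 (fun v hv => (Finset.mem_filter.1 hv).2) ?_
    · intro Φ hΦ
      have h1 : 8 * Φ.card ≤ 3 * C.card + 24 := by
        have : (8 : ℝ) * Φ.card ≤ 3 * C.card + 24 := by linarith
        exact_mod_cast this
      have h2 : r ≤ (C \ Φ).card := by
        have h3 := Finset.le_card_sdiff Φ C
        omega
      obtain ⟨X, hX, hXc⟩ := Finset.exists_subset_card_eq h2
      refine ⟨X, Large_nice hC hCpos fun z hz => (Finset.mem_sdiff.1 (hX hz)).1, hXc, ?_⟩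
      rw [Finset.disjoint_left]
      intro z hz
      exact (Finset.mem_sdiff.1 (hX hz)).2
    · rintro ⟨ψ, h1, h2, h3⟩
      refine hnb ⟨ψ, h1, fun i => ?_, h3⟩
      rcases Finset.mem_union.1 (h2 i) with h | h
      · exact (Finset.mem_filter.1 h).1
      · exact hCU h
  rcases le_or_gt S.card D0.card with hbig | hsmall'
  · exact Large_copy hH (Finset.filter_subset _ _) hD0red hbig
  -- the set `G0`
  have hG : S.card - C.card ≤ (U \ (C ∪ D0)).card := by
    have h1 := Finset.le_card_sdiff (C ∪ D0) U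
    have h2 := Finset.card_union_le C D0
    omega
  obtain ⟨G, hGsub, hGc⟩ := Finset.exists_subset_card_eq hG
  have hGU : G ⊆ U := fun z hz => (Finset.mem_sdiff.1 (hGsub hz)).1
  have hGC : Disjoint C G := by
    rw [Finset.disjoint_right]
    intro z hz hzC
    exact (Finset.mem_sdiff.1 (hGsub hz)).2 (Finset.mem_union_left _ hzC)
  have hGuse : ∀ v ∈ G, Usable R C 1 1 (1 / 8) (2 * Δ) v := by
    intro v hv
    by_contra hcon
    exact (Finset.mem_sdiff.1 (hGsub hv)).2
      (Finset.mem_union_right _ (Finset.mem_filter.2 ⟨hGU hv, hcon⟩))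
  have hfar : G.card * (2 * Δ + 1) ^ 3 ≤ S.card := by
    rw [hGc]
    calc (S.card - C.card) * (2 * Δ + 1) ^ 3 ≤ (S.card - C.card) * K :=
          Nat.mul_le_mul_left _ hK2
      _ = K * (S.card - C.card) := Nat.mul_comm _ _
      _ ≤ S.card := hg
  obtain ⟨x, hx1, hx2⟩ := exists_far hH G hfar
  have hsets : (((∅ : Finset α).card : ℕ) : ℝ) + ((2 * Δ : ℕ) : ℝ) * G.card ≤
      1 / 8 * (C.card : ℝ) := by
    have h1 : 64 * (Δ + 1) * (S.card - C.card) ≤ S.card :=
      (Nat.mul_le_mul_right _ hK3).trans hg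
    have h2 : 8 * (2 * Δ * G.card) ≤ C.card := by
      rw [hGc]
      have h3 : 32 * (2 * Δ * (S.card - C.card)) ≤ 64 * (Δ + 1) * (S.card - C.card) := by
        nlinarith [Nat.zero_le (S.card - C.card)]
      omega
    have h3 : (8 : ℝ) * (((2 * Δ : ℕ) : ℝ) * G.card) ≤ C.card := by exact_mod_cast h2
    rw [Finset.card_empty]
    push_cast at h3 ⊢
    linarith
  obtain ⟨Y, hY1, hY2⟩ := exists_sets R C 1 1 (1 / 8) (2 * Δ) G ∅ hGuse hsets
  have hYC : ∀ v ∈ G, Y v ⊆ C := fun v hv => (hY1 v hv).1.sub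
  obtain ⟨X, φ, p1, p2, p3, p4, -, p6, -, -, p9⟩ := prescribe2 hH R C 1 1 G x hx1 hx2 Y
    (fun v hv => ⟨(hY1 v hv).1, (hY1 v hv).2.1, hGC.mono_left (hYC v hv), (hY1 v hv).2.2.2⟩) hY2
  have hbi : ∀ z ∈ G.biUnion Y, z ∈ C := by
    intro z hz
    obtain ⟨v, hv, hzv⟩ := Finset.mem_biUnion.1 hz
    exact hYC v hv hzv
  refine Large_glue hH hCU hGU hC hGC (by omega) p1 p2 ?_ p4 p6 ?_
  · intro y hy
    rcases Finset.mem_union.1 (p3 y hy) with h | h
    · exact Finset.mem_union_left _ h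
    · exact Finset.mem_union_right _ (hbi _ h)
  · intro f hf y hy hyX hfX
    exact hbi _ (p9 f hf y hy hyX hfX)

end Pool.MP7783b9
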