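import Mathlib

/-!
# A common pattern, and bin packing
-/

set_option autoImplicit false

open Finset

namespace Pool.MP7783b9

theorem pattern {α : Type*} [DecidableEq α] (ε' lam : ℝ) (hε : 0 < ε') (hε1 : ε' ≤ 1)
    (hlam0 : 0 ≤ lam) (hlam : lam ≤ ε' / 16) (n : ℕ) (hn : 8 / ε' ≤ (n : ℝ)) (U : Finset α)
    (hU : U.card = 2 * n - 1) (𝒞 : Finset (Finset α)) (hsub : ∀ C ∈ 𝒞, C ⊆ U)
    (hdisj : ∀ C ∈ 𝒞, ∀ C' ∈ 𝒞, C ≠ C' → Disjoint C C')
    (hleft : ((U \ 𝒞.biUnion id).card : ℝ) ≤ lam * (U.card : ℝ)) (D : Finset α → Finset α)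
    (hD : ∀ C ∈ 𝒞, D C ⊆ U ∧ ((D C).card : ℝ) ≤ (1 - ε') * (n : ℝ)) :
    ∃ J ⊆ 𝒞, ∃ U₀ ⊆ U, (1 + ε' / 4) * (n : ℝ) ≤ ∑ C ∈ J, (C.card : ℝ) ∧
      ε' / 8 / 2 ^ 𝒞.card * (n : ℝ) ≤ (U₀.card : ℝ) ∧ ∀ v ∈ U₀, ∀ C ∈ J, v ∉ D C := by
  classical
  have hn0 : (0 : ℝ) < n := lt_of_lt_of_le (div_pos (by norm_num) hε) hn
  have hn1 : 8 ≤ (n : ℝ) * ε' := by
    rw [div_le_iff₀ hε] at hn
    exact hn
  have hUc : (U.card : ℝ) = 2 * n - 1 := by
    have h1 : 1 ≤ 2 * n := by
      have h0 : 0 < n := by exact_mod_cast hn0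
      omega
    rw [hU, Nat.cast_sub h1]
    push_cast
    ring
  have hsubU : 𝒞.biUnion id ⊆ U := by
    intro x hx
    rw [Finset.mem_biUnion] at hx
    obtain ⟨C, hC, hxC⟩ := hx
    exact hsub C hC hxC
  obtain ⟨S, hS⟩ : ∃ S : ℝ, S = ∑ C ∈ 𝒞, (C.card : ℝ) := ⟨_, rfl⟩
  have hSU : S = ((𝒞.biUnion id).card : ℝ) := by
    rw [Finset.card_biUnion, hS]
    · push_cast
      rfl
    · intro C hC C' hC' hne
      exact hdisj C hC C' hC' hne
  have hSle : S ≤ 2 * n := by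
    have h1 : ((𝒞.biUnion id).card : ℝ) ≤ (U.card : ℝ) := by
      exact_mod_cast Finset.card_le_card hsubU
    rw [hSU]
    linarith only [h1, hUc]
  have hSge : (1 - lam) * (U.card : ℝ) ≤ S := by
    have h1 := Finset.card_sdiff_add_card_eq_card hsubU
    have h2 : ((U \ 𝒞.biUnion id).card : ℝ) + ((𝒞.biUnion id).card : ℝ) = (U.card : ℝ) := by
      exact_mod_cast h1
    rw [hSU, sub_mul, one_mul]
    linarith only [h2, hleft]
  have hUn : (n : ℝ) ≤ (U.card : ℝ) := by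
    have h1 : (8 : ℝ) ≤ n := by nlinarith only [hn1, hε1, hn0]
    linarith only [h1, hUc]
  obtain ⟨m, hm⟩ : ∃ m : α → ℝ, ∀ v, m v = ∑ C ∈ 𝒞 with v ∉ D C, (C.card : ℝ) := ⟨_, fun _ => rfl⟩
  have hmle : ∀ v, m v ≤ 2 * n := by
    intro v
    refine le_trans ?_ hSle
    rw [hm, hS]
    exact Finset.sum_le_sum_of_subset_of_nonneg (Finset.filter_subset _ _)
      (fun C _ _ => Nat.cast_nonneg _)
  have hsum : (1 + ε' / 2) * n * (U.card : ℝ) ≤ ∑ v ∈ U, m v := by
    have h1 : ∑ v ∈ U, m v = ∑ C ∈ 𝒞, ((U.filter (fun v => v ∉ D C)).card : ℝ) * (C.card : ℝ) := by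
      calc ∑ v ∈ U, m v = ∑ v ∈ U, ∑ C ∈ 𝒞, if v ∉ D C then (C.card : ℝ) else 0 := by
            refine Finset.sum_congr rfl (fun v _ => ?_)
            rw [hm, Finset.sum_filter]
        _ = ∑ C ∈ 𝒞, ∑ v ∈ U, if v ∉ D C then (C.card : ℝ) else 0 := Finset.sum_comm
        _ = _ := by
            refine Finset.sum_congr rfl (fun C _ => ?_)
            rw [← Finset.sum_filter, Finset.sum_const, nsmul_eq_mul]
    have h2 : ∀ C ∈ 𝒞, ((1 + ε') * n - 1) * (C.card : ℝ) ≤
        ((U.filter (fun v => v ∉ D C)).card : ℝ) * (C.card : ℝ) := by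
      intro C hC
      obtain ⟨hDU, hDc⟩ := hD C hC
      refine mul_le_mul_of_nonneg_right ?_ (Nat.cast_nonneg _)
      have h3 : U.filter (fun v => v ∉ D C) = U \ D C := by
        ext v
        simp
      rw [h3]
      have h4 := Finset.card_sdiff_add_card_eq_card hDU
      have h5 : ((U \ D C).card : ℝ) + ((D C).card : ℝ) = (U.card : ℝ) := by exact_mod_cast h4
      linarith only [h5, hDc, hUc]
    have h3 : ((1 + ε') * n - 1) * S ≤ ∑ v ∈ U, m v := by
      rw [h1, hS, Finset.mul_sum]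
      exact Finset.sum_le_sum h2
    refine le_trans ?_ h3
    have h4 : (1 + 7 * ε' / 8) * n ≤ (1 + ε') * n - 1 := by
      linarith only [hn1]
    have h5 : (1 - ε' / 16) * (U.card : ℝ) ≤ S := by
      refine le_trans ?_ hSge
      exact mul_le_mul_of_nonneg_right (by linarith only [hlam]) (Nat.cast_nonneg _)
    have h6 : 0 ≤ (1 - ε' / 16) * (U.card : ℝ) :=
      mul_nonneg (by linarith only [hε1]) (Nat.cast_nonneg _)
    have h7 : 0 ≤ (1 + 7 * ε' / 8) * (n : ℝ) :=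
      mul_nonneg (by linarith only [hε]) hn0.le
    calc (1 + ε' / 2) * n * (U.card : ℝ)
        ≤ ((1 + 7 * ε' / 8) * (1 - ε' / 16)) * (n * (U.card : ℝ)) := by
          rw [mul_assoc]
          refine mul_le_mul_of_nonneg_right ?_ (mul_nonneg hn0.le (Nat.cast_nonneg _))
          nlinarith only [hε, hε1, mul_nonneg hε.le (sub_nonneg.2 hε1)]
      _ = ((1 + 7 * ε' / 8) * n) * ((1 - ε' / 16) * (U.card : ℝ)) := by ring
      _ ≤ ((1 + ε') * n - 1) * S :=
          mul_le_mul h4 h5 h6 (le_trans h7 h4)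
  obtain ⟨Gd, hGd⟩ : ∃ Gd : Finset α, Gd = U.filter (fun v => (1 + ε' / 4) * (n : ℝ) ≤ m v) :=
    ⟨_, rfl⟩
  have hGsub : Gd ⊆ U := by
    rw [hGd]
    exact Finset.filter_subset _ _
  have hGcard : ε' / 8 * n ≤ (Gd.card : ℝ) := by
    have h1 : ∑ v ∈ U, m v ≤ (Gd.card : ℝ) * (2 * n) + (U.card : ℝ) * ((1 + ε' / 4) * n) := by
      rw [← Finset.sum_sdiff hGsub, add_comm]
      refine add_le_add ?_ ?_
      · calc ∑ v ∈ Gd, m v ≤ ∑ v ∈ Gd, (2 * n : ℝ) := Finset.sum_le_sum (fun v _ => hmle v)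
          _ = (Gd.card : ℝ) * (2 * n) := by rw [Finset.sum_const, nsmul_eq_mul]
      · calc ∑ v ∈ U \ Gd, m v ≤ ∑ v ∈ U \ Gd, ((1 + ε' / 4) * n : ℝ) := by
              refine Finset.sum_le_sum (fun v hv => ?_)
              rw [Finset.mem_sdiff, hGd, Finset.mem_filter] at hv
              by_contra hcon
              exact hv.2 ⟨hv.1, (not_le.1 hcon).le⟩
          _ = ((U \ Gd).card : ℝ) * ((1 + ε' / 4) * n) := by rw [Finset.sum_const, nsmul_eq_mul]
          _ ≤ (U.card : ℝ) * ((1 + ε' / 4) * n) := by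
              refine mul_le_mul_of_nonneg_right ?_
                (mul_nonneg (by linarith only [hε]) hn0.le)
              exact_mod_cast Finset.card_le_card Finset.sdiff_subset
    have h2 : (U.card : ℝ) * (ε' / 4) * n ≤ (Gd.card : ℝ) * 2 * n := by
      have h3 := le_trans hsum h1
      linarith only [h3]
    have h3 : (U.card : ℝ) * (ε' / 4) ≤ (Gd.card : ℝ) * 2 := le_of_mul_le_mul_right h2 hn0
    have h4 : (n : ℝ) * (ε' / 4) ≤ (U.card : ℝ) * (ε' / 4) :=
      mul_le_mul_of_nonneg_right hUn (by linarith only [hε])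
    linarith only [h3, h4]
  have hfib : ∃ J ∈ 𝒞.powerset, ε' / 8 / 2 ^ 𝒞.card * (n : ℝ) ≤
      ((Gd.filter (fun v => 𝒞.filter (fun C => v ∉ D C) = J)).card : ℝ) := by
    by_contra hcon
    push Not at hcon
    have h1 : Gd.card = ∑ J ∈ 𝒞.powerset,
        (Gd.filter (fun v => 𝒞.filter (fun C => v ∉ D C) = J)).card :=
      Finset.card_eq_sum_card_fiberwise (fun v _ => by
        rw [Finset.mem_coe, Finset.mem_powerset]
        exact Finset.filter_subset _ _)
    have h2 : (Gd.card : ℝ) = ∑ J ∈ 𝒞.powerset,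
        ((Gd.filter (fun v => 𝒞.filter (fun C => v ∉ D C) = J)).card : ℝ) := by
      exact_mod_cast h1
    have h3 : (Gd.card : ℝ) < ∑ J ∈ 𝒞.powerset, ε' / 8 / 2 ^ 𝒞.card * (n : ℝ) := by
      rw [h2]
      exact Finset.sum_lt_sum_of_nonempty ⟨∅, Finset.empty_mem_powerset _⟩ hcon
    rw [Finset.sum_const, Finset.card_powerset, nsmul_eq_mul] at h3
    have h4 : ((2 ^ 𝒞.card : ℕ) : ℝ) * (ε' / 8 / 2 ^ 𝒞.card * (n : ℝ)) = ε' / 8 * n := by
      push_cast
      have h5 : (2 : ℝ) ^ 𝒞.card ≠ 0 := pow_ne_zero _ (by norm_num)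
      field_simp
    rw [h4] at h3
    exact absurd hGcard (not_le.2 h3)
  obtain ⟨J, hJ, hJc⟩ := hfib
  rw [Finset.mem_powerset] at hJ
  refine ⟨J, hJ, Gd.filter (fun v => 𝒞.filter (fun C => v ∉ D C) = J),
    (Finset.filter_subset _ _).trans hGsub, ?_, hJc, ?_⟩
  · have hpos : (0 : ℝ) < ((Gd.filter (fun v => 𝒞.filter (fun C => v ∉ D C) = J)).card : ℝ) :=
      lt_of_lt_of_le (mul_pos (div_pos (by linarith only [hε]) (pow_pos (by norm_num) _)) hn0) hJc
    have hne : (Gd.filter (fun v => 𝒞.filter (fun C => v ∉ D C) = J)).Nonempty := by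
      rw [← Finset.card_pos]
      exact_mod_cast hpos
    obtain ⟨v, hv⟩ := hne
    rw [Finset.mem_filter, hGd, Finset.mem_filter, hm] at hv
    rw [← hv.2]
    exact hv.1.2
  · intro v hv C hC
    rw [Finset.mem_filter] at hv
    rw [← hv.2, Finset.mem_filter] at hC
    exact hC.2

theorem bin_pack {ι β : Type*} [DecidableEq ι] [DecidableEq β] (I : Finset ι) (a : ι → ℕ)
    (J : Finset β) (hJ : J.Nonempty) (cap : β → ℕ) (m : ℕ) (ha : ∀ i ∈ I, a i ≤ m)
    (h : ∑ i ∈ I, a i + J.card * m ≤ ∑ b ∈ J, cap b) :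
    ∃ l : ι → β, (∀ i ∈ I, l i ∈ J) ∧ ∀ b ∈ J, ∑ i ∈ I with l i = b, a i ≤ cap b := by
  induction I using Finset.induction_on with
  | empty =>
    obtain ⟨b0, hb0⟩ := hJ
    exact ⟨fun _ => b0, by simp, by simp⟩
  | insert i I hi ih =>
    have hle : ∑ j ∈ I, a j ≤ ∑ j ∈ insert i I, a j := by
      rw [Finset.sum_insert hi]
      omega
    obtain ⟨l, hl, hcap⟩ := ih (fun j hj => ha j (Finset.mem_insert_of_mem hj)) (by omega)
    have hex : ∃ b ∈ J, (∑ j ∈ I with l j = b, a j) + a i ≤ cap b := by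
      by_contra hno
      push Not at hno
      have h1 : ∑ b ∈ J, cap b < ∑ b ∈ J, ((∑ j ∈ I with l j = b, a j) + a i) :=
        Finset.sum_lt_sum_of_nonempty hJ hno
      rw [Finset.sum_add_distrib, Finset.sum_const] at h1
      have h2 : ∑ b ∈ J, ∑ j ∈ I with l j = b, a j = ∑ j ∈ I, a j :=
        Finset.sum_fiberwise_of_maps_to hl a
      have h3 : a i ≤ m := ha i (Finset.mem_insert_self _ _)
      have h4 : J.card * a i ≤ J.card * m := Nat.mul_le_mul_left _ h3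
      rw [h2, smul_eq_mul] at h1
      omega
    obtain ⟨b, hb, hbi⟩ := hex
    refine ⟨Function.update l i b, ?_, ?_⟩
    · intro j hj
      by_cases hji : j = i
      · subst hji
        rw [Function.update_self]
        exact hb
      · rw [Function.update_of_ne hji]
        exact hl j ((Finset.mem_insert.1 hj).resolve_left hji)
    · intro b' hb'
      have hf : I.filter (fun j => Function.update l i b j = b') =
          I.filter (fun j => l j = b') := by
        apply Finset.filter_congr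
        intro j hj
        have hne : j ≠ i := fun h => hi (h ▸ hj)
        rw [Function.update_of_ne hne]
      rw [Finset.filter_insert, Function.update_self, hf]
      split_ifs with hbb
      · subst hbb
        rw [Finset.sum_insert (fun h => hi (Finset.mem_filter.1 h).1)]
        omega
      · exact hcap b' hb'

end Pool.MP7783b9
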