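import Pool.Agent.H.MP_7783b9_co.G.Clusters
import Pool.Agent.H.MP_7783b9_co.G.Large
import Pool.Agent.H.MP_7783b9_co.G.Pattern
import Pool.Agent.H.MP_7783b9_co.G.EmbC
import Pool.Agent.H.MP_7783b9_co.G.Blind
import Pool.Agent.H.MP_7783b9_co.B.NiceX

/-!
# Few junctions that are far apart: the upper bound
-/

set_option autoImplicit false

open Finset

namespace Pool.MP7783b9

/-- an injection of a small set into a large one -/
private theorem MainG_inj {V α : Type*} [DecidableEq V] [DecidableEq α] (Z : Finset V)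
    (U : Finset α) (hU : U.Nonempty) (h : Z.card ≤ U.card) :
    ∃ g : V → α, Set.InjOn g Z ∧ ∀ z ∈ Z, g z ∈ U := by
  classical
  obtain ⟨U₁, hU₁, hc⟩ := Finset.exists_subset_card_eq h
  obtain ⟨u₀, hu₀⟩ := hU
  let e : Z ≃ U₁ := Finset.equivOfCardEq hc.symm
  refine ⟨fun z => if hz : z ∈ Z then (e ⟨z, hz⟩ : α) else u₀, ?_, ?_⟩
  · intro x hx y hy hxy
    have hx' : x ∈ Z := hx
    have hy' : y ∈ Z := hy
    simp only [dif_pos hx', dif_pos hy'] at hxy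
    have h1 : e ⟨x, hx'⟩ = e ⟨y, hy'⟩ := Subtype.ext hxy
    have h2 := e.injective h1
    exact congrArg Subtype.val h2
  · intro z hz
    simp only [dif_pos hz]
    exact hU₁ (e ⟨z, hz⟩).2

private theorem MainG_mono {α : Type*} [DecidableEq α] {R : Finset α → Prop} {U W : Finset α}
    (h : U ⊆ W) (hU : BlueFano R U) : BlueFano R W := by
  obtain ⟨ψ, h1, h2, h3⟩ := hU
  exact ⟨ψ, h1, fun i => h (h2 i), h3⟩

/-- the embedding when a pattern is given: `J` is a family of sparse clusters and `U₀` a set of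
vertices that see all of them -/
theorem embed_pattern (Δ : ℕ) :
    ∃ c : ℝ, 0 < c ∧ ∀ (ε η φ σ ν : ℝ), 0 < ε → ε ≤ c → 0 < η → η ≤ c → 0 < φ → φ ≤ 1 →
      0 < σ → 0 < ν → ∀ (p₀ : ℕ) (ε' : ℝ), 0 < ε' → ε' ≤ 1 →
      ∃ ζ : ℝ, 0 < ζ ∧ ∃ n₀ : ℕ, ∀ {V ι : Type*} {α : Type} [DecidableEq V] [DecidableEq ι]
      [DecidableEq α] (S : Finset V) (E : Finset (Finset V)) (_ : Hyp S E Δ)
      (_ : ∀ v ∈ S, ∃ f ∈ E, v ∈ f) (cls : Finset V → ι) (_ : Sep E cls)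
      (_ : ∀ i, ((pv E cls i).card : ℝ) ≤ ζ * (S.card : ℝ))
      (_ : ((junc E cls).card : ℝ) ≤ ζ * (S.card : ℝ)) (_ : n₀ ≤ S.card)
      (R : Finset α → Prop) (U : Finset α) (J : Finset (Finset α)) (U₀ : Finset α)
      (_ : U₀ ⊆ U) (_ : ν * (S.card : ℝ) ≤ (U₀.card : ℝ)) (_ : J.card ≤ p₀)
      (_ : ∀ C ∈ J, C ⊆ U ∧ σ * (S.card : ℝ) ≤ (C.card : ℝ) ∧ dense R C ε = ∅)
      (_ : ∀ C ∈ J, ∀ C' ∈ J, C ≠ C' → Disjoint C C')
      (_ : (1 + ε' / 4) * (S.card : ℝ) ≤ ∑ C ∈ J, (C.card : ℝ))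
      (_ : ∀ v ∈ U₀, ∀ C ∈ J, Usable R C ε η φ (2 * Δ) v),
      HasRed R S E U := by
  classical
  obtain ⟨c, hc, n₁, H⟩ := embed_cluster Δ
  refine ⟨c, hc, ?_⟩
  intro ε η φ σ ν hε hεc hη hηc hφ hφ1 hσ hν p₀ ε' hε' hε'1
  have hΔ : (0 : ℝ) ≤ (Δ : ℝ) := Nat.cast_nonneg _
  have hp : (0 : ℝ) ≤ (p₀ : ℝ) := Nat.cast_nonneg _
  have hd1 : (0 : ℝ) < 4 * ((Δ : ℝ) + 2 * p₀ + 1) := by linarith only [hΔ, hp]
  have hd2 : (0 : ℝ) < 1 + 2 * (Δ : ℝ) ^ 2 := by positivity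
  refine ⟨min (min ν (ε' / (4 * ((Δ : ℝ) + 2 * p₀ + 1)))) (min (c * σ)
    (φ * σ / (1 + 2 * (Δ : ℝ) ^ 2))), ?_, ⌈(n₁ : ℝ) / σ⌉₊ + 1, ?_⟩
  · refine lt_min (lt_min hν (div_pos hε' hd1)) (lt_min (mul_pos hc hσ) (div_pos ?_ hd2))
    exact mul_pos hφ hσ
  intro V ι α _ _ _ S E hH hcov cls hSep hpv hj hn R U J U₀ hU₀ hνU hJp hJ hJd hsum hus
  set ζ : ℝ := min (min ν (ε' / (4 * ((Δ : ℝ) + 2 * p₀ + 1)))) (min (c * σ)
    (φ * σ / (1 + 2 * (Δ : ℝ) ^ 2))) with hζdef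
  have hζ1 : ζ ≤ ν := (min_le_left _ _).trans (min_le_left _ _)
  have hζ2 : ζ ≤ ε' / (4 * ((Δ : ℝ) + 2 * p₀ + 1)) :=
    (min_le_left _ _).trans (min_le_right _ _)
  have hζ3 : ζ ≤ c * σ := (min_le_right _ _).trans (min_le_left _ _)
  have hζ4 : ζ ≤ φ * σ / (1 + 2 * (Δ : ℝ) ^ 2) := (min_le_right _ _).trans (min_le_right _ _)
  have hζ0 : 0 < ζ := by
    rw [hζdef]
    refine lt_min (lt_min hν (div_pos hε' hd1)) (lt_min (mul_pos hc hσ) (div_pos ?_ hd2))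
    exact mul_pos hφ hσ
  rw [le_div_iff₀ hd1] at hζ2
  rw [le_div_iff₀ hd2] at hζ4
  clear_value ζ
  set n : ℕ := S.card with hndef
  have hnpos : 0 < n := by omega
  have hnR : (0 : ℝ) < (n : ℝ) := by exact_mod_cast hnpos
  have hn1 : (n₁ : ℝ) ≤ σ * (n : ℝ) := by
    have h1 : (n₁ : ℝ) / σ ≤ (⌈(n₁ : ℝ) / σ⌉₊ : ℝ) := Nat.le_ceil _
    have h2 : ((⌈(n₁ : ℝ) / σ⌉₊ + 1 : ℕ) : ℝ) ≤ (n : ℝ) := by exact_mod_cast hn
    have h3 : (n₁ : ℝ) / σ ≤ (n : ℝ) := by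
      push_cast at h2
      linarith only [h1, h2]
    rw [div_le_iff₀ hσ] at h3
    linarith only [h3]
  set Z : Finset V := junc E cls with hZdef
  have hZR : (Z.card : ℝ) ≤ ζ * (n : ℝ) := hj
  have hU₀ne : U₀.Nonempty := by
    rw [← Finset.card_pos]
    have h1 : (0 : ℝ) < (U₀.card : ℝ) := lt_of_lt_of_le (mul_pos hν hnR) hνU
    exact_mod_cast h1
  have hZU : Z.card ≤ U₀.card := by
    have h1 : ζ * (n : ℝ) ≤ ν * (n : ℝ) := mul_le_mul_of_nonneg_right hζ1 hnR.le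
    have h2 : (Z.card : ℝ) ≤ (U₀.card : ℝ) := hZR.trans (h1.trans hνU)
    exact_mod_cast h2
  obtain ⟨vt, hvti, hvtU⟩ := MainG_inj Z U₀ hU₀ne hZU
  -- sizes
  have hDZ : ∀ C ∈ J, (Z.card : ℝ) + 2 * (Δ : ℝ) ^ 2 * (Z.card : ℝ) ≤ φ * (C.card : ℝ) := by
    intro C hC
    have h1 := (hJ C hC).2.1
    have h2 : (1 + 2 * (Δ : ℝ) ^ 2) * (Z.card : ℝ) ≤ (1 + 2 * (Δ : ℝ) ^ 2) * (ζ * (n : ℝ)) :=
      mul_le_mul_of_nonneg_left hZR hd2.le
    have h3 : ζ * (1 + 2 * (Δ : ℝ) ^ 2) * (n : ℝ) ≤ φ * σ * (n : ℝ) :=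
      mul_le_mul_of_nonneg_right hζ4 hnR.le
    have h4 : φ * (σ * (n : ℝ)) ≤ φ * (C.card : ℝ) := mul_le_mul_of_nonneg_left h1 hφ.le
    nlinarith only [h2, h3, h4]
  have hZC : ∀ C ∈ J, Z.card ≤ C.card := by
    intro C hC
    have h1 := hDZ C hC
    have h2 : φ * (C.card : ℝ) ≤ 1 * (C.card : ℝ) :=
      mul_le_mul_of_nonneg_right hφ1 (Nat.cast_nonneg _)
    have h3 : 0 ≤ 2 * (Δ : ℝ) ^ 2 * (Z.card : ℝ) := by positivity
    have h4 : (Z.card : ℝ) ≤ (C.card : ℝ) := by linarith only [h1, h2, h3]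
    exact_mod_cast h4
  have hJne : J.Nonempty := by
    by_contra h0
    rw [Finset.not_nonempty_iff_eq_empty] at h0
    rw [h0, Finset.sum_empty] at hsum
    have h1 : 0 < (1 + ε' / 4) * (n : ℝ) := by positivity
    linarith only [h1, hsum]
  -- packing of the classes
  have hpack : ∃ l : ι → Finset α, (∀ i ∈ E.image cls, l i ∈ J) ∧
      ∀ b ∈ J, ∑ i ∈ E.image cls with l i = b, (pv E cls i).card ≤ b.card - Z.card := by
    refine bin_pack (E.image cls) (fun i => (pv E cls i).card) J hJne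
      (fun C => C.card - Z.card) ⌊ζ * (n : ℝ)⌋₊ ?_ ?_
    · intro i _
      exact Nat.le_floor (hpv i)
    · have h1 := sum_pv hH cls
      have h2 : ∑ b ∈ J, (b.card - Z.card) + J.card * Z.card = ∑ b ∈ J, b.card := by
        rw [← smul_eq_mul, ← Finset.sum_const, ← Finset.sum_add_distrib]
        refine Finset.sum_congr rfl fun b hb => ?_
        exact Nat.sub_add_cancel (hZC b hb)
      have h3 : ((∑ i ∈ E.image cls, (pv E cls i).card : ℕ) : ℝ) ≤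
          (n : ℝ) + (Δ : ℝ) * (Z.card : ℝ) := by exact_mod_cast h1
      have h4 : (⌊ζ * (n : ℝ)⌋₊ : ℝ) ≤ ζ * (n : ℝ) :=
        Nat.floor_le (mul_pos hζ0 hnR).le
      have hJpR : (J.card : ℝ) ≤ (p₀ : ℝ) := by exact_mod_cast hJp
      have h5 : (J.card : ℝ) * (⌊ζ * (n : ℝ)⌋₊ : ℝ) ≤ (p₀ : ℝ) * (ζ * (n : ℝ)) :=
        mul_le_mul hJpR h4 (Nat.cast_nonneg _) hp
      have h6 : (J.card : ℝ) * (Z.card : ℝ) ≤ (p₀ : ℝ) * (ζ * (n : ℝ)) :=
        mul_le_mul hJpR hZR (Nat.cast_nonneg _) hp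
      have h7 : (Δ : ℝ) * (Z.card : ℝ) ≤ (Δ : ℝ) * (ζ * (n : ℝ)) :=
        mul_le_mul_of_nonneg_left hZR hΔ
      have h8 : ζ * (4 * ((Δ : ℝ) + 2 * p₀ + 1)) * (n : ℝ) ≤ ε' * (n : ℝ) :=
        mul_le_mul_of_nonneg_right hζ2 hnR.le
      have h9 : 0 < ζ * (n : ℝ) := mul_pos hζ0 hnR
      have h10 : ((∑ b ∈ J, (b.card - Z.card) : ℕ) : ℝ) + (J.card : ℝ) * (Z.card : ℝ) =
          ∑ b ∈ J, (b.card : ℝ) := by
        have := congrArg (Nat.cast : ℕ → ℝ) h2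
        push_cast at this
        push_cast
        exact this
      have h11 : ((∑ i ∈ E.image cls, (pv E cls i).card + J.card * ⌊ζ * (n : ℝ)⌋₊ : ℕ) : ℝ) ≤
          ((∑ b ∈ J, (b.card - Z.card) : ℕ) : ℝ) := by
        rw [Nat.cast_add, Nat.cast_mul]
        nlinarith only [h3, h5, h6, h7, h8, h9, h10, hsum]
      exact_mod_cast h11
  obtain ⟨l, hlJ, hlcap⟩ := hpack
  -- the nice sets
  have hDc := incid_card hH cls Z
  set D : Finset (V × ι) := (Z ×ˢ E.image cls).filter fun k => k.1 ∈ pv E cls k.2 with hDdef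
  have hmemD : ∀ z i, (z, i) ∈ D ↔ z ∈ Z ∧ i ∈ E.image cls ∧ z ∈ pv E cls i := by
    intro z i
    rw [hDdef, Finset.mem_filter, Finset.mem_product, and_assoc]
  have hsets : ∃ Y : V × ι → Finset α, (∀ k ∈ D, Nice R (l k.2) ε η (Y k) ∧
      (Y k).card = 2 * Δ ∧ Disjoint (Y k) (Z.image vt) ∧ RedTo R (vt k.1) (Y k)) ∧
      ∀ k ∈ D, ∀ k' ∈ D, k ≠ k' → Disjoint (Y k) (Y k') := by
    refine exists_sets_multi R ε η φ (2 * Δ) D (fun k => l k.2) (fun k => vt k.1)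
      (Z.image vt) ?_ ?_
    · rintro ⟨z, i⟩ hk
      rw [hmemD] at hk
      exact hus (vt z) (hvtU z hk.1) (l i) (hlJ i hk.2.1)
    · rintro ⟨z, i⟩ hk
      rw [hmemD] at hk
      have h1 := hDZ (l i) (hlJ i hk.2.1)
      have h2 : ((Z.image vt).card : ℝ) ≤ (Z.card : ℝ) := by
        exact_mod_cast Finset.card_image_le
      have h3 : (D.card : ℝ) ≤ (Δ : ℝ) * (Z.card : ℝ) := by exact_mod_cast hDc
      have h4 : 2 * (Δ : ℝ) * (D.card : ℝ) ≤ 2 * (Δ : ℝ) * ((Δ : ℝ) * (Z.card : ℝ)) :=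
        mul_le_mul_of_nonneg_left h3 (by positivity)
      push_cast
      nlinarith only [h1, h2, h4]
  obtain ⟨Y, hY1, hY2⟩ := hsets
  have himg : ∀ {z i}, z ∈ pv E cls i → i ∈ E.image cls := by
    intro z i hz
    obtain ⟨f, hf, hfi, _⟩ := mem_pv.1 hz
    exact Finset.mem_image.2 ⟨f, hf, hfi⟩
  -- the cluster embeddings
  have hclu : ∀ C ∈ J, ∃ ψ : V → α,
      Set.InjOn ψ ((((E.image cls).filter fun i => l i = C).biUnion (pv E cls) : Set V) \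
        (Z : Set V)) ∧
      (∀ y ∈ ((E.image cls).filter fun i => l i = C).biUnion (pv E cls) \ Z,
        ψ y ∈ C \ Z.image vt) ∧
        ∀ f ∈ E, cls f ∈ ((E.image cls).filter fun i => l i = C) →
          (Disjoint f Z → R (f.image ψ)) ∧
          ∀ z ∈ f, z ∈ Z → ∀ y ∈ f, y ≠ z → ψ y ∈ Y (z, cls f) := by
    intro C hC
    have hCn : n₁ ≤ C.card := by
      have h1 : (n₁ : ℝ) ≤ (C.card : ℝ) := hn1.trans (hJ C hC).2.1
      exact_mod_cast h1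
    refine H S E hH cls hSep R C ((E.image cls).filter fun i => l i = C) vt ε η hεc hηc
      (hJ C hC).2.2 Y ?_ ?_ ?_ ?_ hCn
    · intro z hz i hi hzi
      rw [Finset.mem_filter] at hi
      have h1 := hY1 (z, i) ((hmemD z i).2 ⟨hz, hi.1, hzi⟩)
      refine ⟨?_, h1.2.1, h1.2.2.1⟩
      have h2 := h1.1
      simp only at h2
      rw [hi.2] at h2
      exact h2
    · intro z hz i hi hzi z' hz' i' hi' hzi' hne
      rw [Finset.mem_filter] at hi hi'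
      exact hY2 (z, i) ((hmemD z i).2 ⟨hz, hi.1, hzi⟩) (z', i')
        ((hmemD z' i').2 ⟨hz', hi'.1, hzi'⟩) hne
    · have h1 : (((E.image cls).filter fun i => l i = C).biUnion (pv E cls) \ Z).card ≤
          C.card - Z.card :=
        (Finset.card_le_card Finset.sdiff_subset).trans
          (Finset.card_biUnion_le.trans (hlcap C hC))
      have h2 := hZC C hC
      have h3 : (((E.image cls).filter fun i => l i = C).biUnion (pv E cls) \ Z).card +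
          Z.card ≤ C.card := by omega
      exact h3
    · have h1 : ζ * (n : ℝ) ≤ c * σ * (n : ℝ) := mul_le_mul_of_nonneg_right hζ3 hnR.le
      have h2 : c * (σ * (n : ℝ)) ≤ c * (C.card : ℝ) :=
        mul_le_mul_of_nonneg_left (hJ C hC).2.1 hc.le
      have h3 : (Z.card : ℝ) ≤ c * (C.card : ℝ) := by
        rw [mul_assoc] at h1
        exact hZR.trans (h1.trans h2)
      exact h3
  have : Nonempty α := ⟨hU₀ne.choose⟩
  choose! ψ hψ using hclu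
  choose! ed hed using hcov
  -- the map
  have hcl : ∀ f ∈ E, ∀ y ∈ f, y ∉ Z → cls (ed y) = cls f := by
    intro f hf y hy hyZ
    have hyS : y ∈ S := hH.sub f hf hy
    exact class_unique hyZ (hed y hyS).1 hf (hed y hyS).2 hy
  have hin : ∀ f ∈ E, ∀ y ∈ f, y ∉ Z →
      y ∈ ((E.image cls).filter fun i => l i = l (cls f)).biUnion (pv E cls) \ Z := by
    intro f hf y hy hyZ
    rw [Finset.mem_sdiff]
    refine ⟨Finset.mem_biUnion.2 ⟨cls f, ?_, mem_pv.2 ⟨f, hf, rfl, hy⟩⟩, hyZ⟩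
    exact Finset.mem_filter.2 ⟨Finset.mem_image_of_mem _ hf, rfl⟩
  have hcf : ∀ f ∈ E, l (cls f) ∈ J := fun f hf => hlJ _ (Finset.mem_image_of_mem _ hf)
  set F : V → α := fun y => if y ∈ Z then vt y else ψ (l (cls (ed y))) y with hFdef
  have hF1 : ∀ y ∈ Z, F y = vt y := by
    intro y hy
    simp only [hFdef, if_pos hy]
  have hF2 : ∀ f ∈ E, ∀ y ∈ f, y ∉ Z → F y = ψ (l (cls f)) y := by
    intro f hf y hy hyZ
    simp only [hFdef, if_neg hyZ]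
    rw [hcl f hf y hy hyZ]
  have hF3 : ∀ y ∈ S, y ∉ Z → F y ∈ l (cls (ed y)) \ Z.image vt := by
    intro y hy hyZ
    have h1 := hed y hy
    rw [hF2 (ed y) h1.1 y h1.2 hyZ]
    exact (hψ _ (hcf _ h1.1)).2.1 y (hin _ h1.1 y h1.2 hyZ)
  refine ⟨F, ?_, ?_, ?_⟩
  · -- injectivity
    have hmix : ∀ x ∈ S, ∀ y ∈ S, x ∈ Z → y ∉ Z → F x ≠ F y := by
      intro x hx y hy hxZ hyZ hxy
      have h1 := hF3 y hy hyZ
      rw [Finset.mem_sdiff] at h1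
      apply h1.2
      rw [← hxy, hF1 x hxZ]
      exact Finset.mem_image_of_mem _ hxZ
    intro x hx y hy hxy
    have hx' : x ∈ S := hx
    have hy' : y ∈ S := hy
    by_cases hxZ : x ∈ Z
    · by_cases hyZ : y ∈ Z
      · rw [hF1 x hxZ, hF1 y hyZ] at hxy
        exact hvti hxZ hyZ hxy
      · exact absurd hxy (hmix x hx' y hy' hxZ hyZ)
    · by_cases hyZ : y ∈ Z
      · exact absurd hxy.symm (hmix y hy' x hx' hyZ hxZ)
      · have h1 := hF3 x hx' hxZ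
        have h2 := hF3 y hy' hyZ
        rw [Finset.mem_sdiff] at h1 h2
        have hex := hed x hx'
        have hey := hed y hy'
        by_cases hC : l (cls (ed x)) = l (cls (ed y))
        · have h3 := (hψ _ (hcf _ hex.1)).1
          have h4 := hin _ hex.1 x hex.2 hxZ
          have h5 := hin _ hey.1 y hey.2 hyZ
          rw [← hC] at h5
          rw [hF2 _ hex.1 x hex.2 hxZ, hF2 _ hey.1 y hey.2 hyZ, ← hC] at hxy
          rw [Finset.mem_sdiff] at h4 h5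
          exact h3 ⟨Finset.mem_coe.2 h4.1, h4.2⟩ ⟨Finset.mem_coe.2 h5.1, h5.2⟩ hxy
        · exfalso
          have h3 := hJd _ (hcf _ hex.1) _ (hcf _ hey.1) hC
          have h4 := Finset.disjoint_left.1 h3 h1.1
          rw [hxy] at h4
          exact h4 h2.1
  · intro y hy
    by_cases hyZ : y ∈ Z
    · rw [hF1 y hyZ]
      exact hU₀ (hvtU y hyZ)
    · have h1 := hF3 y hy hyZ
      rw [Finset.mem_sdiff] at h1
      exact (hJ _ (hcf _ (hed y hy).1)).1 h1.1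
  · intro f hf
    have hfI : cls f ∈ ((E.image cls).filter fun i => l i = l (cls f)) :=
      Finset.mem_filter.2 ⟨Finset.mem_image_of_mem _ hf, rfl⟩
    obtain ⟨hd, hz⟩ := (hψ _ (hcf f hf)).2.2 f hf hfI
    by_cases hdis : Disjoint f Z
    · have h1 : f.image F = f.image (ψ (l (cls f))) := by
        refine Finset.image_congr fun y hy => ?_
        have hy' : y ∈ f := hy
        exact hF2 f hf y hy' (Finset.disjoint_left.1 hdis hy')
      rw [h1]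
      exact hd hdis
    · rw [Finset.not_disjoint_iff] at hdis
      obtain ⟨z, hzf, hzZ⟩ := hdis
      have huniq : ∀ z' ∈ f, z' ∈ Z → z' = z := by
        intro z' hz'f hz'Z
        have hne : (f ∩ f).Nonempty := ⟨z, Finset.mem_inter.2 ⟨hzf, hzf⟩⟩
        exact hSep f hf f hf f hf rfl rfl z' hz'Z z hzZ hz'f hzf hne hne
      have hc3 : (f.erase z).card = 2 := by
        rw [Finset.card_erase_of_mem hzf, hH.three f hf]
      obtain ⟨y, y', hyy, hfe⟩ := Finset.card_eq_two.1 hc3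
      have hy : y ∈ f.erase z := by rw [hfe]; simp
      have hy' : y' ∈ f.erase z := by rw [hfe]; simp
      rw [Finset.mem_erase] at hy hy'
      have hyZ : y ∉ Z := fun h => hy.1 (huniq y hy.2 h)
      have hyZ' : y' ∉ Z := fun h => hy'.1 (huniq y' hy'.2 h)
      have h1 : f = {z, y, y'} := by
        rw [← Finset.insert_erase hzf, hfe]
      have h2 : f.image F = {vt z, ψ (l (cls f)) y, ψ (l (cls f)) y'} := by
        have h3 : f.image F = ({z, y, y'} : Finset V).image F := congrArg (Finset.image F) h1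
        rw [h3, Finset.image_insert, Finset.image_insert, Finset.image_singleton,
          hF1 z hzZ, hF2 f hf y hy.2 hyZ, hF2 f hf y' hy'.2 hyZ']
      rw [h2]
      have h4 := hY1 (z, cls f) ((hmemD z (cls f)).2
        ⟨hzZ, Finset.mem_image_of_mem _ hf, mem_pv.2 ⟨f, hf, rfl, hzf⟩⟩)
      refine h4.2.2.2.2 _ (hz z hzf hzZ y hy.2 hy.1) _ (hz z hzf hzZ y' hy'.2 hy'.1) ?_
      intro heq
      have h5 := hin f hf y hy.2 hyZ
      have h6 := hin f hf y' hy'.2 hyZ'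
      rw [Finset.mem_sdiff] at h5 h6
      exact hyy ((hψ _ (hcf f hf)).1 ⟨Finset.mem_coe.2 h5.1, h5.2⟩
        ⟨Finset.mem_coe.2 h6.1, h6.2⟩ heq)

theorem upper_junctions (Δ : ℕ) :
    ∃ ζ : ℝ, 0 < ζ ∧ ∃ n₀ : ℕ, ∀ {V ι : Type*} {α : Type} [DecidableEq V] [DecidableEq ι]
      [DecidableEq α] (S : Finset V) (E : Finset (Finset V)) (_ : Hyp S E Δ)
      (_ : ∀ v ∈ S, ∃ f ∈ E, v ∈ f) (cls : Finset V → ι) (_ : Sep E cls)
      (_ : ∀ i, ((pv E cls i).card : ℝ) ≤ ζ * (S.card : ℝ))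
      (_ : ((junc E cls).card : ℝ) ≤ ζ * (S.card : ℝ)) (_ : n₀ ≤ S.card)
      (R : Finset α → Prop) (U : Finset α) (_ : U.card = 2 * S.card - 1),
      HasRed R S E U ∨ BlueFano R U := by
  classical
  obtain ⟨ε₁, hε₁, hε₁1, nL, HL⟩ := large_clique Δ
  obtain ⟨r, Hr⟩ := blind_red (2 * Δ)
  obtain ⟨c, hc, HP⟩ := embed_pattern Δ
  have hr0 : (0 : ℝ) ≤ (r : ℝ) := Nat.cast_nonneg _
  have hr1 : (0 : ℝ) < (r : ℝ) + 1 := by linarith only [hr0]
  obtain ⟨η, hη, hηc, hηr⟩ : ∃ η : ℝ, 0 < η ∧ η ≤ c ∧ η ≤ 1 / (64 * ((r : ℝ) + 1) ^ 2) :=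
    ⟨min c (1 / (64 * ((r : ℝ) + 1) ^ 2)), lt_min hc (by positivity), min_le_left _ _,
      min_le_right _ _⟩
  obtain ⟨ε, hε, hεc, hεr⟩ : ∃ ε : ℝ, 0 < ε ∧ ε ≤ c ∧ ε ≤ η / (64 * ((r : ℝ) + 1)) :=
    ⟨min c (η / (64 * ((r : ℝ) + 1))), lt_min hc (by positivity), min_le_left _ _,
      min_le_right _ _⟩
  obtain ⟨σ, hσ, p₀, nC, HC⟩ := clusters ε (ε₁ / 16) hε (by positivity)
  have hν : (0 : ℝ) < ε₁ / 8 / 2 ^ p₀ := by positivity
  obtain ⟨ζ, hζ, nE, HE⟩ := HP ε η (1 / 16) σ (ε₁ / 8 / 2 ^ p₀) hε hεc hη hηc (by norm_num)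
    (by norm_num) hσ hν p₀ ε₁ hε₁ hε₁1
  refine ⟨ζ, hζ, nL + nC + nE + ⌈8 / ε₁⌉₊ + ⌈(2 * (r : ℝ) + 8) / σ⌉₊ + 1, ?_⟩
  intro V ι α _ _ _ S E hH hcov cls hSep hpv hj hn R U hU
  set n : ℕ := S.card with hndef
  have hnpos : 0 < n := by omega
  have hnR : (0 : ℝ) < (n : ℝ) := by exact_mod_cast hnpos
  have hn8 : 8 / ε₁ ≤ (n : ℝ) := by
    have h1 : 8 / ε₁ ≤ (⌈8 / ε₁⌉₊ : ℝ) := Nat.le_ceil _
    have h2 : ⌈8 / ε₁⌉₊ ≤ n := by omega
    have h3 : (⌈8 / ε₁⌉₊ : ℝ) ≤ (n : ℝ) := by exact_mod_cast h2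
    exact h1.trans h3
  have hnσ : 2 * (r : ℝ) + 8 ≤ σ * (n : ℝ) := by
    have h1 : (2 * (r : ℝ) + 8) / σ ≤ (⌈(2 * (r : ℝ) + 8) / σ⌉₊ : ℝ) := Nat.le_ceil _
    have h2 : ⌈(2 * (r : ℝ) + 8) / σ⌉₊ ≤ n := by omega
    have h3 : (⌈(2 * (r : ℝ) + 8) / σ⌉₊ : ℝ) ≤ (n : ℝ) := by exact_mod_cast h2
    have h4 := h1.trans h3
    rw [div_le_iff₀ hσ] at h4
    linarith only [h4]
  by_cases hBF : BlueFano R U
  · exact Or.inr hBF
  left
  have hUn : n ≤ U.card := by omega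
  have hUnR : (n : ℝ) ≤ (U.card : ℝ) := by exact_mod_cast hUn
  obtain ⟨𝒞, h𝒞p, h𝒞, h𝒞d, h𝒞l⟩ := HC R U (by omega) hBF
  have h𝒞σ : ∀ C ∈ 𝒞, σ * (n : ℝ) ≤ (C.card : ℝ) := fun C hC =>
    (mul_le_mul_of_nonneg_left hUnR hσ.le).trans (h𝒞 C hC).2.1
  -- the blind vertices
  have hblind : ∀ C ∈ 𝒞, RedClique R (U.filter fun v => ¬ Usable R C ε η (1 / 16) (2 * Δ) v) := by
    intro C hC
    refine Hr R C ε η (1 / 16) (by norm_num) ?_ _ ?_ ?_
    · intro Φ hΦ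
      have hCr : 2 * (r : ℝ) + 8 ≤ (C.card : ℝ) := hnσ.trans (h𝒞σ C hC)
      have hC0 : (0 : ℝ) ≤ (C.card : ℝ) := Nat.cast_nonneg _
      have hA : (C.card : ℝ) ≤ ((C \ Φ).card : ℝ) + (Φ.card : ℝ) := by
        have h1 : C.card ≤ (C \ Φ).card + Φ.card := by
          have h2 := Finset.card_le_card_sdiff_add_card (s := C) (t := Φ)
          exact h2
        exact_mod_cast h1
      have h1 : (r : ℝ) * (ε / η) ≤ 1 / 64 := by
        have h2 : ε / η ≤ 1 / (64 * ((r : ℝ) + 1)) := by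
          rw [div_le_iff₀ hη]
          calc ε ≤ η / (64 * ((r : ℝ) + 1)) := hεr
            _ = 1 / (64 * ((r : ℝ) + 1)) * η := by ring
        have h3 : (r : ℝ) * (ε / η) ≤ (r : ℝ) * (1 / (64 * ((r : ℝ) + 1))) :=
          mul_le_mul_of_nonneg_left h2 hr0
        have h4 : (r : ℝ) * (1 / (64 * ((r : ℝ) + 1))) ≤ 1 / 64 := by
          rw [mul_one_div, div_le_div_iff₀ (by positivity) (by norm_num)]
          linarith only [hr0]
        exact h3.trans h4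
      have h5 : (r : ℝ) ^ 2 * η ≤ 1 / 64 := by
        have h6 : (r : ℝ) ^ 2 * η ≤ (r : ℝ) ^ 2 * (1 / (64 * ((r : ℝ) + 1) ^ 2)) :=
          mul_le_mul_of_nonneg_left hηr (by positivity)
        have h7 : (r : ℝ) ^ 2 * (1 / (64 * ((r : ℝ) + 1) ^ 2)) ≤ 1 / 64 := by
          rw [mul_one_div, div_le_div_iff₀ (by positivity) (by norm_num)]
          nlinarith only [hr0]
        exact h6.trans h7
      have h8 : (r : ℝ) * (ε / η) * (C.card : ℝ) ≤ 1 / 64 * (C.card : ℝ) :=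
        mul_le_mul_of_nonneg_right h1 hC0
      have h9 : (r : ℝ) ^ 2 * η * (C.card : ℝ) ≤ 1 / 64 * (C.card : ℝ) :=
        mul_le_mul_of_nonneg_right h5 hC0
      obtain ⟨X, hXA, hXn, hXc⟩ := exists_nice R C ε η 0 hε hη r (C \ Φ) Finset.sdiff_subset
        (by rw [(h𝒞 C hC).2.2]; simp) (by linarith only [h8, h9, hA, hΦ, hCr, hr0])
      refine ⟨X, hXn, hXc, ?_⟩
      exact Finset.disjoint_of_subset_left hXA Finset.sdiff_disjoint
    · intro v hv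
      exact (Finset.mem_filter.1 hv).2
    · intro hB
      apply hBF
      refine MainG_mono (Finset.union_subset (Finset.filter_subset _ _) (h𝒞 C hC).1) hB
  by_cases hbig : ∃ C ∈ 𝒞, (1 - ε₁) * (n : ℝ) <
      ((U.filter fun v => ¬ Usable R C ε η (1 / 16) (2 * Δ) v).card : ℝ)
  · obtain ⟨C, hC, hCb⟩ := hbig
    exact HL S E hH R U hU.ge hBF _ (Finset.filter_subset _ _) (hblind C hC) hCb.le (by omega)
  push Not at hbig
  obtain ⟨J, hJ𝒞, U₀, hU₀, hJs, hU₀c, hJU⟩ := pattern ε₁ (ε₁ / 16) hε₁ hε₁1 (by positivity)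
    le_rfl n hn8 U hU 𝒞 (fun C hC => (h𝒞 C hC).1) h𝒞d h𝒞l
    (fun C => U.filter fun v => ¬ Usable R C ε η (1 / 16) (2 * Δ) v)
    (fun C hC => ⟨Finset.filter_subset _ _, hbig C hC⟩)
  refine HE S E hH hcov cls hSep hpv hj (by omega) R U J U₀ hU₀ ?_
    ((Finset.card_le_card hJ𝒞).trans h𝒞p) ?_ ?_ hJs ?_
  · refine le_trans ?_ hU₀c
    refine mul_le_mul_of_nonneg_right ?_ hnR.le
    refine div_le_div_of_nonneg_left (by positivity) (by positivity) ?_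
    exact pow_le_pow_right₀ (by norm_num) h𝒞p
  · intro C hC
    exact ⟨(h𝒞 C (hJ𝒞 hC)).1, h𝒞σ C (hJ𝒞 hC), (h𝒞 C (hJ𝒞 hC)).2.2⟩
  · intro C hC C' hC' hne
    exact h𝒞d C (hJ𝒞 hC) C' (hJ𝒞 hC') hne
  · intro v hv C hC
    by_contra hnu
    exact hJU v hv C hC (Finset.mem_filter.2 ⟨hU₀ hv, hnu⟩)

end Pool.MP7783b9
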