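import Pool.Agent.H.MP_7783b9_co.G.MainG

/-!
# Few junctions that are far apart: isolated vertices are allowed
-/

set_option autoImplicit false

open Finset

namespace Pool.MP7783b9

/-- disjoint triples covering a finite set up to at most two points -/
theorem triples {V : Type*} [DecidableEq V] (S : Finset V) :
    ∃ (S' : Finset V) (T : Finset (Finset V)), S' ⊆ S ∧ (S \ S').card ≤ 2 ∧
      (∀ f ∈ T, f.card = 3) ∧ (∀ f ∈ T, ∀ g ∈ T, f ≠ g → Disjoint f g) ∧ T.biUnion id = S' := by
  induction S using Finset.strongInduction with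
  | H S ih =>
    by_cases h : S.card ≤ 2
    · refine ⟨∅, ∅, Finset.empty_subset _, by rwa [Finset.sdiff_empty],
        fun f hf => absurd hf (Finset.notMem_empty f),
        fun f hf => absurd hf (Finset.notMem_empty f), Finset.biUnion_empty⟩
    · obtain ⟨e, heS, he3⟩ := Finset.exists_subset_card_eq (s := S) (n := 3) (by omega)
      have hne : e.Nonempty := Finset.card_pos.1 (by omega)
      have hlt : S \ e ⊂ S := Finset.sdiff_ssubset heS hne
      obtain ⟨S', T, hS', hc, h3, hd, hU⟩ := ih (S \ e) hlt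
      have hTe : ∀ f ∈ T, Disjoint e f := by
        intro f hf
        have h1 : f ⊆ T.biUnion id := Finset.subset_biUnion_of_mem id hf
        rw [hU] at h1
        exact Finset.disjoint_of_subset_right (h1.trans hS') Finset.disjoint_sdiff
      refine ⟨e ∪ S', insert e T, Finset.union_subset heS (hS'.trans Finset.sdiff_subset), ?_, ?_,
        ?_, ?_⟩
      · have h2 : S \ (e ∪ S') = (S \ e) \ S' := by
          ext v
          simp only [Finset.mem_union, Finset.mem_sdiff]
          tauto
        rw [h2]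
        exact hc
      · intro f hf
        rcases Finset.mem_insert.1 hf with rfl | hf
        · exact he3
        · exact h3 f hf
      · intro f hf g hg hfg
        rcases Finset.mem_insert.1 hf with hf1 | hf1
        · rcases Finset.mem_insert.1 hg with hg1 | hg1
          · exact absurd (hf1.trans hg1.symm) hfg
          · rw [hf1]
            exact hTe g hg1
        · rcases Finset.mem_insert.1 hg with hg1 | hg1
          · rw [hg1]
            exact (hTe f hf1).symm
          · exact hd f hf1 g hg1 hfg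
      · rw [Finset.biUnion_insert, hU, id]

/-- a red copy of the vertices of `S` extends to the remaining, isolated vertices -/
theorem hasRed_extend {V : Type*} {α : Type} [Fintype V] [DecidableEq V] [DecidableEq α]
    {R : Finset α → Prop} {S : Finset V} {E : Finset (Finset V)} {U' U : Finset α}
    (hE : ∀ f ∈ E, f ⊆ S) (hU : U' ⊆ U) (hc : Fintype.card V ≤ U.card)
    (h : HasRed R S E U') : HasRed R Finset.univ E U := by
  classical
  obtain ⟨φ, hinj, hmem, hred⟩ := h
  have hcA : (S.image φ).card = S.card := Finset.card_image_of_injOn hinj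
  have hAU : S.image φ ⊆ U := by
    intro a ha
    obtain ⟨v, hv, rfl⟩ := Finset.mem_image.1 ha
    exact hU (hmem v hv)
  have hcard : Fintype.card {v : V // v ∉ S} ≤ (U \ S.image φ).card := by
    rw [Finset.card_sdiff_of_subset hAU, hcA]
    have h1 : Fintype.card {v : V // v ∉ S} = Fintype.card V - S.card := by
      rw [Fintype.card_subtype_compl, Fintype.card_coe]
    omega
  obtain ⟨ψ, hψ⟩ := Function.Embedding.exists_of_card_le_finset hcard
  have hψ' : ∀ v, ψ v ∈ U \ S.image φ := fun v => hψ ⟨v, rfl⟩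
  refine ⟨fun v => if hv : v ∈ S then φ v else ψ ⟨v, hv⟩, ?_, ?_, ?_⟩
  · intro v _ w _ hvw
    by_cases hv : v ∈ S
    · by_cases hw : w ∈ S
      · simp only [dif_pos hv, dif_pos hw] at hvw
        exact hinj hv hw hvw
      · simp only [dif_pos hv, dif_neg hw] at hvw
        have h1 := (Finset.mem_sdiff.1 (hψ' ⟨w, hw⟩)).2
        exact absurd (Finset.mem_image.2 ⟨v, hv, hvw⟩) h1
    · by_cases hw : w ∈ S
      · simp only [dif_neg hv, dif_pos hw] at hvw
        have h1 := (Finset.mem_sdiff.1 (hψ' ⟨v, hv⟩)).2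
        exact absurd (Finset.mem_image.2 ⟨w, hw, hvw.symm⟩) h1
      · simp only [dif_neg hv, dif_neg hw] at hvw
        exact congrArg Subtype.val (ψ.injective hvw)
  · intro v _
    by_cases hv : v ∈ S
    · simp only [dif_pos hv]
      exact hU (hmem v hv)
    · simp only [dif_neg hv]
      exact (Finset.mem_sdiff.1 (hψ' ⟨v, hv⟩)).1
  · intro f hf
    have h1 : (f.image fun v => if hv : v ∈ S then φ v else ψ ⟨v, hv⟩) = f.image φ := by
      refine Finset.image_congr ?_
      intro v hv
      have hv' : v ∈ S := hE f hf hv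
      simp only [dif_pos hv']
    rw [h1]
    exact hred f hf

theorem junctions_pad (Δ : ℕ) :
    ∃ ζ : ℝ, 0 < ζ ∧ ∃ n₀ : ℕ, ∀ {V : Type*} {α : Type} [Fintype V] [DecidableEq V]
      [DecidableEq α] (E : Finset (Finset V)) (_ : Hyp Finset.univ E Δ)
      (cls : Finset V → ℕ) (_ : Sep E cls)
      (_ : ∀ i, ((pv E cls i).card : ℝ) ≤ ζ * (Fintype.card V : ℝ))
      (_ : ((junc E cls).card : ℝ) ≤ ζ * (Fintype.card V : ℝ)) (_ : n₀ ≤ Fintype.card V)
      (R : Finset α → Prop) (U : Finset α) (_ : U.card = 2 * Fintype.card V - 1),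
      HasRed R Finset.univ E U ∨ BlueFano R U := by
  classical
  obtain ⟨ζ₀, hζ₀, n₁, H⟩ := upper_junctions (max Δ 1)
  refine ⟨ζ₀ / 2, by positivity, max (n₁ + 2) (⌈6 / ζ₀⌉₊ + 4), ?_⟩
  intro V α _ _ _ E hH cls hSep hpv hj hn R U hU
  have hn1 : n₁ + 2 ≤ Fintype.card V := (le_max_left _ _).trans hn
  have hn2 : ⌈6 / ζ₀⌉₊ + 4 ≤ Fintype.card V := (le_max_right _ _).trans hn
  obtain ⟨S', T, hS', hc, h3, hd, hTU⟩ :=
    triples (Finset.univ.filter fun v : V => ∀ f ∈ E, v ∉ f)
  set Iso : Finset V := Finset.univ.filter fun v : V => ∀ f ∈ E, v ∉ f with hIso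
  set S : Finset V := Finset.univ \ (Iso \ S') with hS
  have hmS : ∀ v : V, v ∈ S ↔ (v ∉ Iso ∨ v ∈ S') := by
    intro v
    rw [hS, Finset.mem_sdiff, Finset.mem_sdiff]
    simp only [Finset.mem_univ, true_and]
    tauto
  have hmI : ∀ v : V, v ∈ Iso ↔ ∀ f ∈ E, v ∉ f := by
    intro v
    rw [hIso, Finset.mem_filter]
    simp
  have hTsub : ∀ f ∈ T, f ⊆ S' := by
    intro f hf
    rw [← hTU]
    exact Finset.subset_biUnion_of_mem id hf
  have hTE : ∀ f ∈ T, ∀ g ∈ E, ∀ v, v ∈ f → v ∉ g := by
    intro f hf g hg v hv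
    exact (hmI v).1 (hS' (hTsub f hf hv)) g hg
  have hTnE : ∀ f ∈ E, f ∉ T := by
    intro f hfE hfT
    have hne : f.Nonempty := Finset.card_pos.1 (by rw [h3 f hfT]; omega)
    obtain ⟨v, hv⟩ := hne
    exact hTE f hfT f hfE v hv hv
  have hES : ∀ f ∈ E, f ⊆ S := by
    intro f hf v hv
    rw [hmS]
    left
    intro hI
    exact (hmI v).1 hI f hf hv
  have hTS : ∀ f ∈ T, f ⊆ S := by
    intro f hf v hv
    rw [hmS]
    right
    exact hTsub f hf hv
  have huniq : ∀ f ∈ T, ∀ g ∈ E ∪ T, ∀ v, v ∈ f → v ∈ g → f = g := by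
    intro f hf g hg v hvf hvg
    rcases Finset.mem_union.1 hg with hg | hg
    · exact absurd hvg (hTE f hf g hg v hvf)
    · by_contra hfg
      exact Finset.disjoint_left.1 (hd f hf g hg hfg) hvf hvg
  have hHyp : Hyp S (E ∪ T) (max Δ 1) := by
    refine ⟨?_, ?_, ?_⟩
    · intro f hf
      rcases Finset.mem_union.1 hf with hf | hf
      · exact hH.three f hf
      · exact h3 f hf
    · intro f hf
      rcases Finset.mem_union.1 hf with hf | hf
      · exact hES f hf
      · exact hTS f hf
    · intro x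
      by_cases hx : ∃ f ∈ T, x ∈ f
      · obtain ⟨f, hf, hxf⟩ := hx
        have h1 : edgesAt (E ∪ T) x ⊆ {f} := by
          intro g hg
          obtain ⟨hg, hxg⟩ := Finset.mem_filter.1 hg
          rw [Finset.mem_singleton]
          exact (huniq f hf g hg x hxf hxg).symm
        have h2 := Finset.card_le_card h1
        rw [Finset.card_singleton] at h2
        exact h2.trans (le_max_right _ _)
      · have h1 : edgesAt (E ∪ T) x ⊆ edgesAt E x := by
          intro g hg
          obtain ⟨hg, hxg⟩ := Finset.mem_filter.1 hg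
          rcases Finset.mem_union.1 hg with hg | hg
          · exact Finset.mem_filter.2 ⟨hg, hxg⟩
          · exact absurd ⟨g, hg, hxg⟩ hx
        exact (Finset.card_le_card h1).trans ((hH.deg x).trans (le_max_left _ _))
  have hcov : ∀ v ∈ S, ∃ f ∈ E ∪ T, v ∈ f := by
    intro v hv
    rcases (hmS v).1 hv with hv | hv
    · rw [hmI] at hv
      push Not at hv
      obtain ⟨f, hf, hvf⟩ := hv
      exact ⟨f, Finset.mem_union_left _ hf, hvf⟩
    · rw [← hTU, Finset.mem_biUnion] at hv
      obtain ⟨f, hf, hvf⟩ := hv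
      exact ⟨f, Finset.mem_union_right _ hf, hvf⟩
  set cls' : Finset V → ℕ ⊕ Finset V := fun f => if f ∈ T then Sum.inr f else Sum.inl (cls f)
    with hcls'
  have hcE : ∀ f ∈ E, cls' f = Sum.inl (cls f) := fun f hf => if_neg (hTnE f hf)
  have hcT : ∀ f ∈ T, cls' f = Sum.inr f := fun f hf => if_pos hf
  have hjunc : ∀ v, v ∈ junc (E ∪ T) cls' → v ∈ junc E cls := by
    intro v hv
    obtain ⟨f, hf, g, hg, hvf, hvg, hne⟩ := mem_junc.1 hv
    have hfT : f ∉ T := fun hfT => hne (by rw [huniq f hfT g hg v hvf hvg])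
    have hgT : g ∉ T := fun hgT => hne (by rw [huniq g hgT f hf v hvg hvf])
    have hfE : f ∈ E := (Finset.mem_union.1 hf).resolve_right hfT
    have hgE : g ∈ E := (Finset.mem_union.1 hg).resolve_right hgT
    rw [hcE f hfE, hcE g hgE] at hne
    exact mem_junc.2 ⟨f, hfE, g, hgE, hvf, hvg, fun h => hne (by rw [h])⟩
  have hjT : ∀ v ∈ junc (E ∪ T) cls', ∀ f ∈ E ∪ T, v ∈ f → f ∈ E := by
    intro v hv f hf hvf
    obtain ⟨g, hg, -, -, hvg, -, -⟩ := mem_junc.1 (hjunc v hv)
    rcases Finset.mem_union.1 hf with hf | hf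
    · exact hf
    · exact absurd hvg (hTE f hf g hg v hvf)
  have hSep' : Sep (E ∪ T) cls' := by
    intro f hf g hg h hh hfg hgh z hz z' hz' hzf hzh hne1 hne2
    have hfE : f ∈ E := hjT z hz f hf hzf
    have hhE : h ∈ E := hjT z' hz' h hh hzh
    have hgE : g ∈ E := by
      rcases Finset.mem_union.1 hg with hg | hg
      · exact hg
      · obtain ⟨v, hv⟩ := hne1
        rw [Finset.mem_inter] at hv
        have h1 := huniq g hg f hf v hv.2 hv.1
        exact absurd hg (h1 ▸ hTnE f hfE)
    rw [hcE f hfE, hcE g hgE] at hfg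
    rw [hcE g hgE, hcE h hhE] at hgh
    exact hSep f hfE g hgE h hhE (Sum.inl_injective hfg) (Sum.inl_injective hgh) z (hjunc z hz)
      z' (hjunc z' hz') hzf hzh hne1 hne2
  have hcS : Fintype.card V ≤ S.card + 2 := by
    rw [hS, Finset.card_univ_sdiff]
    omega
  have hSV : S.card ≤ Fintype.card V := Finset.card_le_univ S
  have hcS' : (Fintype.card V : ℝ) ≤ (S.card : ℝ) + 2 := by exact_mod_cast hcS
  have h6 : 6 / ζ₀ + 4 ≤ (Fintype.card V : ℝ) := by
    have h1 : 6 / ζ₀ ≤ (⌈6 / ζ₀⌉₊ : ℝ) := Nat.le_ceil _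
    have h2 : ((⌈6 / ζ₀⌉₊ : ℕ) : ℝ) + 4 ≤ (Fintype.card V : ℝ) := by exact_mod_cast hn2
    linarith
  have h60 : 0 < 6 / ζ₀ := by positivity
  have hhalf : ζ₀ / 2 * (Fintype.card V : ℝ) ≤ ζ₀ * (S.card : ℝ) := by
    have h1 : (Fintype.card V : ℝ) ≤ 2 * (S.card : ℝ) := by linarith
    nlinarith
  have h3S : (3 : ℝ) ≤ ζ₀ * (S.card : ℝ) := by
    have h1 : 6 / ζ₀ ≤ (S.card : ℝ) := by linarith
    have h2 : 6 ≤ ζ₀ * (S.card : ℝ) := by
      rw [div_le_iff₀ hζ₀] at h1
      linarith
    linarith
  have hpv' : ∀ i, ((pv (E ∪ T) cls' i).card : ℝ) ≤ ζ₀ * (S.card : ℝ) := by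
    intro i
    rcases i with i | f
    · have h1 : pv (E ∪ T) cls' (Sum.inl i) ⊆ pv E cls i := by
        intro v hv
        obtain ⟨f, hf, hfi, hvf⟩ := mem_pv.1 hv
        rcases Finset.mem_union.1 hf with hf | hf
        · rw [hcE f hf] at hfi
          exact mem_pv.2 ⟨f, hf, Sum.inl_injective hfi, hvf⟩
        · rw [hcT f hf] at hfi
          exact absurd hfi (by simp)
      have h2 : ((pv (E ∪ T) cls' (Sum.inl i)).card : ℝ) ≤ ((pv E cls i).card : ℝ) := by
        exact_mod_cast Finset.card_le_card h1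
      exact h2.trans ((hpv i).trans hhalf)
    · have h1 : (pv (E ∪ T) cls' (Sum.inr f)).card ≤ 3 := by
        by_cases hfT : f ∈ T
        · have h2 : pv (E ∪ T) cls' (Sum.inr f) ⊆ f := by
            intro v hv
            obtain ⟨g, hg, hgi, hvg⟩ := mem_pv.1 hv
            rcases Finset.mem_union.1 hg with hg | hg
            · rw [hcE g hg] at hgi
              exact absurd hgi (by simp)
            · rw [hcT g hg] at hgi
              rw [← Sum.inr_injective hgi]
              exact hvg
          exact (Finset.card_le_card h2).trans (h3 f hfT).le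
        · have h2 : pv (E ∪ T) cls' (Sum.inr f) = ∅ := by
            rw [Finset.eq_empty_iff_forall_notMem]
            intro v hv
            obtain ⟨g, hg, hgi, hvg⟩ := mem_pv.1 hv
            rcases Finset.mem_union.1 hg with hg | hg
            · rw [hcE g hg] at hgi
              exact absurd hgi (by simp)
            · rw [hcT g hg] at hgi
              exact hfT (Sum.inr_injective hgi ▸ hg)
          rw [h2, Finset.card_empty]
          omega
      have h2 : ((pv (E ∪ T) cls' (Sum.inr f)).card : ℝ) ≤ 3 := by exact_mod_cast h1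
      exact h2.trans h3S
  have hj' : ((junc (E ∪ T) cls').card : ℝ) ≤ ζ₀ * (S.card : ℝ) := by
    have h2 : ((junc (E ∪ T) cls').card : ℝ) ≤ ((junc E cls).card : ℝ) := by
      exact_mod_cast Finset.card_le_card fun v hv => hjunc v hv
    exact h2.trans (hj.trans hhalf)
  obtain ⟨U', hU'U, hU'c⟩ := Finset.exists_subset_card_eq (s := U) (n := 2 * S.card - 1)
    (by omega)
  rcases H S (E ∪ T) hHyp hcov cls' hSep' hpv' hj' (by omega) R U' hU'c with h | h
  · left
    refine hasRed_extend (S := S) (U' := U') hES hU'U (by omega) ?_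
    obtain ⟨φ, h1, h2, h4⟩ := h
    exact ⟨φ, h1, h2, fun f hf => h4 f (Finset.mem_union_left _ hf)⟩
  · right
    obtain ⟨ψ, h1, h2, h4⟩ := h
    exact ⟨ψ, h1, fun i => hU'U (h2 i), h4⟩

end Pool.MP7783b9
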